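import Pool.Graph.R_seed8.Helper427.FPT.Defs2
import Pool.Graph.R_seed8.Helper427.FPT.P_bounds
import Pool.Graph.R_seed8.Helper427.FPT.P_bb_eD

/-! The derivative of `|u|²` in terms of the covariant derivative (for MP_b50944_gt). -/

open scoped Quaternion ContDiff
open MeasureTheory FPM Filter Topology

namespace Pool.Agent.KS6_31.CO

open FPT

/-- antisymmetric matrices act skewly -/
theorem skew_zero (G : Fin 6 → Fin 6 → ℝ) (hG : ∀ a b, G a b = - G b a) (K : Fin 6 → Fin 6 → ℝ)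
    (hK : ∀ a b, K a b = K b a) : ∑ b, ∑ g, G b g * K b g = 0 := by
  have h1 : ∑ b, ∑ g, G b g * K b g = ∑ b, ∑ g, - (G b g * K b g) := by
    rw [Finset.sum_comm]
    refine Finset.sum_congr rfl fun b _ => Finset.sum_congr rfl fun g _ => ?_
    rw [hG g b, hK g b]
    ring
  simp only [Finset.sum_neg_distrib] at h1
  linarith

theorem skew1 (G : Fin 6 → Fin 6 → ℝ) (hG : ∀ a b, G a b = - G b a)
    (w : Fin 6 → Fin 6 → Fin 6 → ℝ) :
    ∑ b, ∑ c, ∑ d, w b c d * ∑ g, G b g * w g c d = 0 := by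
  have h := skew_zero G hG (fun b g => ∑ c, ∑ d, w b c d * w g c d) (fun a b => by
    refine Finset.sum_congr rfl fun c _ => Finset.sum_congr rfl fun d _ => ?_
    ring)
  rw [← h]
  refine Finset.sum_congr rfl fun b _ => ?_
  simp only [Finset.mul_sum]
  rw [Finset.sum_comm_cycle]
  refine Finset.sum_congr rfl fun g _ => Finset.sum_congr rfl fun c _ =>
    Finset.sum_congr rfl fun d _ => ?_
  ring

theorem skew2 (G : Fin 6 → Fin 6 → ℝ) (hG : ∀ a b, G a b = - G b a)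
    (w : Fin 6 → Fin 6 → Fin 6 → ℝ) :
    ∑ b, ∑ c, ∑ d, w b c d * ∑ g, G c g * w b g d = 0 := by
  have h := skew1 G hG (fun c b d => w b c d)
  rw [Finset.sum_comm] at h
  exact h

theorem skew3 (G : Fin 6 → Fin 6 → ℝ) (hG : ∀ a b, G a b = - G b a)
    (w : Fin 6 → Fin 6 → Fin 6 → ℝ) :
    ∑ b, ∑ c, ∑ d, w b c d * ∑ g, G d g * w b c g = 0 := by
  refine Finset.sum_eq_zero fun b _ => Finset.sum_eq_zero fun c _ => ?_
  have h := skew_zero G hG (fun d g => w b c d * w b c g) (fun a b => mul_comm _ _)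
  rw [← h]
  refine Finset.sum_congr rfl fun d _ => ?_
  rw [Finset.mul_sum]
  refine Finset.sum_congr rfl fun g _ => ?_
  ring

/-- `|u|²` -/
noncomputable def Nn (u : Ten) : SmA := ∑ a, ∑ b, ∑ c, u a b c * u a b c

/-- `|∇u|²` -/
noncomputable def Dn (g : Geo) (u : Ten) : SmA := ∑ a, ∑ b, ∑ c, ∑ d, FPF.nab3 (FD g) u a b c d ^ 2

theorem ev_Nn (u : Ten) (x : M) : ev x (Nn u) = ∑ a, ∑ b, ∑ c, ev x (u a b c) ^ 2 := by
  unfold Nn
  simp only [map_sum, map_mul, sq]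

theorem ev_Dn (g : Geo) (u : Ten) (x : M) :
    ev x (Dn g u) = ∑ a, ∑ b, ∑ c, ∑ d, ev x (FPF.nab3 (FD g) u a b c d) ^ 2 := by
  unfold Dn
  simp only [map_sum, map_pow]

theorem Nn_nonneg (u : Ten) (x : M) : 0 ≤ ev x (Nn u) := by
  rw [ev_Nn]
  exact Finset.sum_nonneg fun _ _ => Finset.sum_nonneg fun _ _ => Finset.sum_nonneg
    fun _ _ => sq_nonneg _

theorem Dn_nonneg (g : Geo) (u : Ten) (x : M) : 0 ≤ ev x (Dn g u) := by
  rw [ev_Dn]
  exact Finset.sum_nonneg fun _ _ => Finset.sum_nonneg fun _ _ => Finset.sum_nonneg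
    fun _ _ => Finset.sum_nonneg fun _ _ => sq_nonneg _

theorem eD_Nn (g : Geo) (u : Ten) (a : Fin 6) (x : M) :
    ev x (eD g a (Nn u)) =
      2 * ∑ b, ∑ c, ∑ d, ev x (u b c d) * ev x (FPF.nab3 (FD g) u a b c d) := by
  have h1 : eD g a (Nn u) = ∑ b, ∑ c, ∑ d, (u b c d * eD g a (u b c d) + u b c d * eD g a (u b c d)) := by
    unfold Nn
    simp only [map_sum, Derivation.leibniz, smul_eq_mul]
  have hnab : ∀ b c d, ev x (FPF.nab3 (FD g) u a b c d) = ev x (eD g a (u b c d))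
      - ∑ f, ev x (Gam g a b f) * ev x (u f c d) - ∑ f, ev x (Gam g a c f) * ev x (u b f d)
      - ∑ f, ev x (Gam g a d f) * ev x (u b c f) := by
    intro b c d
    unfold FPF.nab3
    simp only [map_sub, map_sum, map_mul]
    rfl
  have hanti : ∀ b c, ev x (Gam g a b c) = - ev x (Gam g a c b) := by
    intro b c
    rw [Gam_anti g a b c, map_neg]
  have s1 := skew1 (fun b f => ev x (Gam g a b f)) hanti (fun b c d => ev x (u b c d))
  have s2 := skew2 (fun b f => ev x (Gam g a b f)) hanti (fun b c d => ev x (u b c d))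
  have s3 := skew3 (fun b f => ev x (Gam g a b f)) hanti (fun b c d => ev x (u b c d))
  have h2 : ∑ b, ∑ c, ∑ d, ev x (u b c d) * ev x (FPF.nab3 (FD g) u a b c d)
      = ∑ b, ∑ c, ∑ d, ev x (u b c d) * ev x (eD g a (u b c d)) := by
    simp only [hnab, mul_sub, Finset.sum_sub_distrib]
    rw [s1, s2, s3]
    ring
  rw [h1, h2]
  simp only [map_sum, map_add, map_mul, Finset.mul_sum]
  refine Finset.sum_congr rfl fun b _ => Finset.sum_congr rfl fun c _ =>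
    Finset.sum_congr rfl fun d _ => ?_
  ring

theorem eD_Nn_le (g : Geo) (u : Ten) (a : Fin 6) (x : M) (ε : ℝ) (hε : 0 < ε) :
    |ev x (eD g a (Nn u))| ≤ ε * ev x (Nn u) + ε⁻¹ * ev x (Dn g u) := by
  rw [eD_Nn, ev_Nn, ev_Dn, abs_mul, abs_of_pos (by norm_num : (0 : ℝ) < 2)]
  have h1 : ∀ p q : ℝ, 2 * |p * q| ≤ ε * p ^ 2 + ε⁻¹ * q ^ 2 := by
    intro p q
    rw [abs_mul]
    have h2 : 0 ≤ ε⁻¹ * (ε * |p| - |q|) ^ 2 := by positivity
    have h3 : ε⁻¹ * (ε * |p| - |q|) ^ 2 = ε * |p| ^ 2 - 2 * (|p| * |q|) + ε⁻¹ * |q| ^ 2 := by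
      field_simp
      ring
    rw [h3, sq_abs, sq_abs] at h2
    linarith
  have h4 : 2 * |∑ b, ∑ c, ∑ d, ev x (u b c d) * ev x (FPF.nab3 (FD g) u a b c d)| ≤
      ∑ b, ∑ c, ∑ d, (ε * ev x (u b c d) ^ 2 + ε⁻¹ * ev x (FPF.nab3 (FD g) u a b c d) ^ 2) := by
    calc _ ≤ 2 * ∑ b, ∑ c, ∑ d, |ev x (u b c d) * ev x (FPF.nab3 (FD g) u a b c d)| := by
          refine mul_le_mul_of_nonneg_left ?_ (by norm_num)
          refine (Finset.abs_sum_le_sum_abs _ _).trans (Finset.sum_le_sum fun b _ => ?_)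
          refine (Finset.abs_sum_le_sum_abs _ _).trans (Finset.sum_le_sum fun c _ => ?_)
          exact Finset.abs_sum_le_sum_abs _ _
      _ = ∑ b, ∑ c, ∑ d, 2 * |ev x (u b c d) * ev x (FPF.nab3 (FD g) u a b c d)| := by
          simp only [Finset.mul_sum]
      _ ≤ _ := Finset.sum_le_sum fun b _ => Finset.sum_le_sum fun c _ =>
          Finset.sum_le_sum fun d _ => h1 _ _
  refine h4.trans ?_
  simp only [Finset.sum_add_distrib, ← Finset.mul_sum]
  refine add_le_add le_rfl (mul_le_mul_of_nonneg_left ?_ (inv_nonneg.2 hε.le))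
  exact Finset.single_le_sum
    (f := fun a => ∑ b, ∑ c, ∑ d, ev x (FPF.nab3 (FD g) u a b c d) ^ 2)
    (fun _ _ => Finset.sum_nonneg fun _ _ => Finset.sum_nonneg fun _ _ =>
      Finset.sum_nonneg fun _ _ => sq_nonneg _) (Finset.mem_univ a)

theorem ED_Nn_le (g : Geo) : ∃ C : ℝ, 0 ≤ C ∧ ∀ (u : Ten) (i : Fin 6) (x : M) (ε : ℝ), 0 < ε →
    |ev x (ED i (Nn u))| ≤ C * (ε * ev x (Nn u) + ε⁻¹ * ev x (Dn g u)) := by
  choose C hC0 hC using fun (p : Fin 6 × Fin 6) => (bounds (bb g p.1 p.2)).1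
  refine ⟨∑ p, C p, Finset.sum_nonneg fun p _ => hC0 p, ?_⟩
  intro u i x ε hε
  rw [← bb_eD g i (Nn u), map_sum]
  refine (Finset.abs_sum_le_sum_abs _ _).trans ?_
  obtain ⟨Y, hY⟩ : ∃ Y, Y = ε * ev x (Nn u) + ε⁻¹ * ev x (Dn g u) := ⟨_, rfl⟩
  have hY0 : 0 ≤ Y := by
    rw [hY]
    exact add_nonneg (mul_nonneg hε.le (Nn_nonneg u x))
      (mul_nonneg (inv_nonneg.2 hε.le) (Dn_nonneg g u x))
  rw [← hY]
  calc ∑ c, |ev x (bb g i c * eD g c (Nn u))| ≤ ∑ c, C (i, c) * Y := by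
        refine Finset.sum_le_sum fun c _ => ?_
        rw [map_mul, abs_mul]
        refine mul_le_mul (hC (i, c) x) ?_ (abs_nonneg _) (hC0 _)
        rw [hY]
        exact eD_Nn_le g u c x ε hε
    _ = (∑ c, C (i, c)) * Y := by rw [Finset.sum_mul]
    _ ≤ (∑ p, C p) * Y := by
        refine mul_le_mul_of_nonneg_right ?_ hY0
        rw [Fintype.sum_prod_type]
        exact Finset.single_le_sum (f := fun i => ∑ c, C (i, c))
          (fun _ _ => Finset.sum_nonneg fun _ _ => hC0 _) (Finset.mem_univ i)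

end Pool.Agent.KS6_31.CO
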