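import Pool.Agent.KS6_31.CO.Path
import Pool.Graph.R_seed8.Helper427.FPM.P_int_E

/-! An `L¹` Poincaré inequality on `S³ × S³` (for MP_b50944_gt). -/

open MeasureTheory FPM Set

namespace Pool.Agent.KS6_31.CO

theorem integrable_of_cont (h : M → ℝ) (hh : Continuous h) : Integrable h mu := by
  have hprob : IsProbabilityMeasure mu := mu_prob
  exact hh.integrable_of_hasCompactSupport (HasCompactSupport.of_compactSpace _)

theorem left_inv (h : M → ℝ) (y : M) : ∫ x, h (y * x) ∂mu = ∫ x, h x ∂mu := by
  have hinv : mu.IsMulLeftInvariant := by unfold mu; infer_instance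
  exact integral_mul_left_eq_self h y

theorem mu_right : mu.IsMulRightInvariant := by
  have hhaar : mu.IsHaarMeasure := by unfold mu; infer_instance
  have hprob : IsProbabilityMeasure mu := mu_prob
  constructor
  intro g
  have h1 : (Measure.map (fun x => x * g) mu).IsHaarMeasure :=
    Measure.isHaarMeasure_map_mul_right (μ := mu) g
  have h2 : IsProbabilityMeasure (Measure.map (fun x => x * g) mu) :=
    Measure.isProbabilityMeasure_map (continuous_mul_const g).aemeasurable
  exact Measure.isHaarMeasure_eq_of_isProbabilityMeasure _ _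

theorem right_inv (h : M → ℝ) (y : M) : ∫ x, h (x * y) ∂mu = ∫ x, h x ∂mu := by
  have hinv := mu_right
  exact integral_mul_right_eq_self h y

theorem integral_pos_of_cont (h : M → ℝ) (hh : Continuous h) (h0 : ∀ x, 0 ≤ h x) (x0 : M)
    (hx0 : 0 < h x0) : 0 < ∫ x, h x ∂mu := by
  have hhaar : mu.IsHaarMeasure := by unfold mu; infer_instance
  exact hh.integral_pos_of_hasCompactSupport_nonneg_nonzero (HasCompactSupport.of_compactSpace _)
    h0 hx0.ne'

/-- the shift of a smooth function by any group element, in `L¹` -/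
theorem shift (F : M → ℝ) (hF : Sm F) (y : M) :
    ∫ x, |F (y * x) - F x| ∂mu ≤ Real.pi * ∑ i, ∫ x, |E i F x| ∂mu := by
  have hprob : IsProbabilityMeasure mu := mu_prob
  obtain ⟨c, b, hc, hc0, hc1, hb, hd⟩ := exists_path y
  have hFc : Continuous F := sm_cont F hF
  have hEc : ∀ i, Continuous (E i F) := fun i => sm_cont _ (E_sm i F hF)
  obtain ⟨G, hG⟩ : ∃ G : M → ℝ, G = fun x => ∑ i, |E i F x| := ⟨_, rfl⟩
  have hGc : Continuous G := by
    rw [hG]
    exact continuous_finsetSum _ fun i _ => (hEc i).abs
  have hcx : ∀ x : M, Continuous fun t => c t * x := fun x => hc.mul continuous_const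
  have h1 : ∀ x, |F (y * x) - F x| ≤ ∫ t in (0 : ℝ)..1, Real.pi * G (c t * x) := by
    intro x
    have hcont : Continuous fun t => ∑ i, b i * E i F (c t * x) :=
      continuous_finsetSum _ fun i _ => continuous_const.mul ((hEc i).comp (hcx x))
    have h2 : ∫ t in (0 : ℝ)..1, ∑ i, b i * E i F (c t * x) = F (c 1 * x) - F (c 0 * x) :=
      intervalIntegral.integral_eq_sub_of_hasDerivAt (fun t _ => hd F hF x t)
        (hcont.intervalIntegrable _ _)
    rw [hc0, hc1, one_mul] at h2
    rw [← h2]
    refine (intervalIntegral.abs_integral_le_integral_abs zero_le_one).trans ?_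
    refine intervalIntegral.integral_mono_on zero_le_one (hcont.abs.intervalIntegrable _ _)
      ((continuous_const.mul (hGc.comp (hcx x))).intervalIntegrable _ _) fun t _ => ?_
    rw [hG]
    refine (Finset.abs_sum_le_sum_abs _ _).trans ?_
    rw [Finset.mul_sum]
    refine Finset.sum_le_sum fun i _ => ?_
    rw [abs_mul]
    exact mul_le_mul_of_nonneg_right (hb i) (abs_nonneg _)
  have hfc : Continuous (Function.uncurry fun (x : M) (t : ℝ) => Real.pi * G (c t * x)) :=
    continuous_const.mul (hGc.comp ((hc.comp continuous_snd).mul continuous_fst))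
  obtain ⟨C, hC⟩ := (isCompact_univ (X := M)).exists_bound_of_continuousOn hGc.continuousOn
  have hint : Integrable (Function.uncurry fun (x : M) (t : ℝ) => Real.pi * G (c t * x))
      (mu.prod (volume.restrict (Ioc (0 : ℝ) 1))) := by
    refine Integrable.of_bound hfc.aestronglyMeasurable (Real.pi * C) ?_
    refine Filter.Eventually.of_forall fun p => ?_
    show ‖Real.pi * G (c p.2 * p.1)‖ ≤ _
    rw [norm_mul, Real.norm_of_nonneg Real.pi_pos.le]
    exact mul_le_mul_of_nonneg_left (hC _ (mem_univ _)) Real.pi_pos.le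
  have hsf : SFinite mu := by
    have h1 : IsFiniteMeasure mu := inferInstance
    have h2 : SigmaFinite mu := IsFiniteMeasure.toSigmaFinite mu
    exact @instSFiniteOfSigmaFinite _ _ mu h2
  have hswap := integral_integral_swap (μ := mu) (ν := volume.restrict (Ioc (0 : ℝ) 1)) hint
  have h3 : ∫ x, |F (y * x) - F x| ∂mu ≤
      ∫ x, (∫ t in Ioc (0 : ℝ) 1, Real.pi * G (c t * x)) ∂mu := by
    refine integral_mono (integrable_of_cont _ ?_) hint.integral_prod_left fun x => ?_
    · exact ((hFc.comp (continuous_const.mul continuous_id)).sub hFc).abs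
    · have := h1 x
      rwa [intervalIntegral.integral_of_le zero_le_one] at this
  refine h3.trans (le_of_eq ?_)
  rw [hswap]
  have h4 : ∀ t, ∫ x, Real.pi * G (c t * x) ∂mu = Real.pi * ∑ i, ∫ x, |E i F x| ∂mu := by
    intro t
    rw [integral_const_mul, left_inv G (c t), hG]
    congr 1
    exact integral_finsetSum _ fun i _ => integrable_of_cont _ (hEc i).abs
  simp only [h4]
  simp

/-- `L¹` Poincaré inequality with a weight -/
theorem poincare (χ : M → ℝ) (hχ : Continuous χ) (B : ℝ) (h0 : ∀ x, 0 ≤ χ x) (hB : ∀ x, χ x ≤ B)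
    (F : M → ℝ) (hF : Sm F) :
    (∫ x, χ x ∂mu) * ∫ x, F x ∂mu ≤
      B * (Real.pi * ∑ i, ∫ x, |E i F x| ∂mu) + ∫ x, χ x * F x ∂mu := by
  have hprob : IsProbabilityMeasure mu := mu_prob
  have hFc : Continuous F := sm_cont F hF
  have hB0 : 0 ≤ B := (h0 1).trans (hB 1)
  have hlm : ∀ y : M, Continuous fun x : M => y * x := fun y => continuous_const.mul continuous_id
  have e1 : ∀ x, ∫ y, χ (y * x) * F x ∂mu = (∫ x, χ x ∂mu) * F x := by
    intro x
    rw [integral_mul_const, right_inv χ x]
  have hc1 : Continuous (Function.uncurry fun (x y : M) => χ (y * x) * F x) :=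
    (hχ.comp (continuous_snd.mul continuous_fst)).mul (hFc.comp continuous_fst)
  have hc2 : Continuous (Function.uncurry fun (x y : M) =>
      B * |F (y * x) - F x| + χ (y * x) * F (y * x)) :=
    (continuous_const.mul (((hFc.comp (continuous_snd.mul continuous_fst)).sub
      (hFc.comp continuous_fst)).abs)).add
      ((hχ.comp (continuous_snd.mul continuous_fst)).mul
        (hFc.comp (continuous_snd.mul continuous_fst)))
  have s1 := integral_integral_swap_of_hasCompactSupport (μ := mu) (ν := mu) hc1
    (HasCompactSupport.of_compactSpace _)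
  have e2 : (∫ x, χ x ∂mu) * ∫ x, F x ∂mu = ∫ y, (∫ x, χ (y * x) * F x ∂mu) ∂mu := by
    rw [← s1]
    simp only [e1]
    rw [integral_const_mul]
  rw [e2]
  have hy : ∀ y, ∫ x, χ (y * x) * F x ∂mu ≤
      B * (Real.pi * ∑ i, ∫ x, |E i F x| ∂mu) + ∫ x, χ x * F x ∂mu := by
    intro y
    have c1 : Continuous fun x => χ (y * x) * F x := (hχ.comp (hlm y)).mul hFc
    have c2 : Continuous fun x => B * |F (y * x) - F x| :=
      continuous_const.mul (((hFc.comp (hlm y)).sub hFc).abs)
    have c3 : Continuous fun x => χ (y * x) * F (y * x) := (hχ.comp (hlm y)).mul (hFc.comp (hlm y))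
    have h1 : ∫ x, χ (y * x) * F x ∂mu ≤
        ∫ x, (B * |F (y * x) - F x| + χ (y * x) * F (y * x)) ∂mu := by
      refine integral_mono (integrable_of_cont _ c1) (integrable_of_cont _ (c2.add c3)) fun x => ?_
      have h2 : χ (y * x) * (F x - F (y * x)) ≤ B * |F (y * x) - F x| := by
        calc χ (y * x) * (F x - F (y * x)) ≤ χ (y * x) * |F (y * x) - F x| := by
              refine mul_le_mul_of_nonneg_left ?_ (h0 _)
              rw [abs_sub_comm]
              exact le_abs_self _
          _ ≤ B * |F (y * x) - F x| := mul_le_mul_of_nonneg_right (hB _) (abs_nonneg _)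
      show χ (y * x) * F x ≤ B * |F (y * x) - F x| + χ (y * x) * F (y * x)
      linarith
    rw [integral_add (integrable_of_cont _ c2) (integrable_of_cont _ c3), integral_const_mul,
      left_inv (fun x => χ x * F x) y] at h1
    have h3 := mul_le_mul_of_nonneg_left (shift F hF y) hB0
    linarith
  have hint : Integrable (fun y => ∫ x, χ (y * x) * F x ∂mu) mu := by
    have hc1' : Continuous (Function.uncurry fun (y x : M) => χ (y * x) * F x) :=
      (hχ.comp (continuous_fst.mul continuous_snd)).mul (hFc.comp continuous_snd)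
    have hmes : Continuous fun y => ∫ x, χ (y * x) * F x ∂mu := by
      have h := continuous_parametric_integral_of_continuous (μ := mu) hc1'
        (isCompact_univ (X := M))
      simpa only [Measure.restrict_univ] using h
    exact integrable_of_cont _ hmes
  calc ∫ y, (∫ x, χ (y * x) * F x ∂mu) ∂mu ≤
      ∫ _y : M, (B * (Real.pi * ∑ i, ∫ x, |E i F x| ∂mu) + ∫ x, χ x * F x ∂mu) ∂mu :=
        integral_mono hint (integrable_const _) hy
    _ = _ := by simp

end Pool.Agent.KS6_31.CO
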