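import Pool.Agent.KS6_31.CO.Coer
import Pool.Agent.KS6_31.CO.Kato
import Pool.Agent.KS6_31.CO.Poinc
import Pool.Graph.R_seed8.Helper427.FPT.P_bochner_int
import Pool.Graph.R_seed8.Helper427.FPT.P_Bf_compare
import Pool.Graph.R_seed8.Helper427.FPT.P_divergence
import Pool.Graph.R_seed8.Helper427.FPT.P_link_T
import Pool.Graph.R_seed8.Helper427.FPF.P_bochner

/-! The integrated Bochner inequality for a Weitzenboeck form which is nonnegative, and positive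
at one point (for MP_b50944_gt). -/

open MeasureTheory FPM Filter Topology

namespace Pool.Agent.KS6_31.CO

open FPT

theorem bochner (g : Geo) (ρ : SmA) (hρ : IsDensity g ρ)
    (h : ∀ x u, FPA.Alt3 u → 0 ≤ FPA.Tform (Kx g x) u) (x0 : M)
    (h0 : ∀ u, FPA.Alt3 u → u ≠ 0 → 0 < FPA.Tform (Kx g x0) u) : ∃ c : ℝ, 0 < c ∧
    ∀ u : Ten, FPF.Alt3 u → c * Bf ρ u u ≤ En ρ (FPF.d3 (FD g) u, FPF.del3 (FD g) u) := by
  obtain ⟨χ, B, hχc, hχ0, hχB, hχp, hT⟩ := coer g h x0 h0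
  obtain ⟨C, hC0, hC⟩ := ED_Nn_le g
  obtain ⟨r, hr, hρr⟩ := (bounds ρ).2 hρ.1
  obtain ⟨R, hR0, hρR⟩ := (bounds ρ).1
  obtain ⟨κ, hκ⟩ : ∃ κ, κ = ∫ x, χ x ∂mu := ⟨_, rfl⟩
  have hκ0 : 0 < κ := by
    rw [hκ]
    exact integral_pos_of_cont χ hχc hχ0 x0 hχp
  have hB0 : 0 ≤ B := (hχ0 x0).trans (hχB x0)
  -- the constants
  obtain ⟨A, hA⟩ : ∃ A : ℝ, A = B * (Real.pi * (6 * C)) := ⟨_, rfl⟩
  have hA0 : 0 ≤ A := by rw [hA]; have := Real.pi_pos; positivity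
  obtain ⟨ε, hε⟩ : ∃ ε : ℝ, ε = κ / (2 * (A + 1)) := ⟨_, rfl⟩
  have hε0 : 0 < ε := by rw [hε]; positivity
  have hAε : A * ε ≤ κ / 2 := by
    rw [hε, ← mul_div_assoc, div_le_div_iff₀ (by positivity) (by norm_num)]
    nlinarith
  -- integral of `|u|²` bounded by the integrals of `|∇u|²` and `χ |u|²`
  have hP : ∀ u : Ten, κ / 2 * intA (Nn u) ≤
      A * ε⁻¹ * intA (Dn g u) + ∫ x, χ x * ev x (Nn u) ∂mu := by
    intro u
    have h1 := poincare χ hχc B hχ0 hχB (Nn u).1 (Nn u).2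
    have h2 : ∑ i, ∫ x, |E i (Nn u).1 x| ∂mu ≤
        6 * (C * (ε * intA (Nn u) + ε⁻¹ * intA (Dn g u))) := by
      have h3 : ∀ i, ∫ x, |E i (Nn u).1 x| ∂mu ≤
          C * (ε * intA (Nn u) + ε⁻¹ * intA (Dn g u)) := by
        intro i
        have h4 : intA (C • (ε • Nn u + ε⁻¹ • Dn g u)) =
            C * (ε * intA (Nn u) + ε⁻¹ * intA (Dn g u)) := by
          simp only [map_smul, map_add, smul_eq_mul]
        rw [← h4]
        refine integral_mono ?_ (integrable_ev _) fun x => ?_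
        · exact integrable_of_cont _ (sm_cont _ (E_sm i _ (Nn u).2)).abs
        · have h5 := hC u i x ε hε0
          rw [ev_ED] at h5
          show |E i (Nn u).1 x| ≤ ev x (C • (ε • Nn u + ε⁻¹ • Dn g u))
          simp only [map_smul, map_add, smul_eq_mul]
          exact h5
      calc _ ≤ ∑ _i : Fin 6, C * (ε * intA (Nn u) + ε⁻¹ * intA (Dn g u)) :=
            Finset.sum_le_sum fun i _ => h3 i
        _ = _ := by simp
    have h6 : B * (Real.pi * ∑ i, ∫ x, |E i (Nn u).1 x| ∂mu) ≤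
        A * ε * intA (Nn u) + A * ε⁻¹ * intA (Dn g u) := by
      calc _ ≤ B * (Real.pi * (6 * (C * (ε * intA (Nn u) + ε⁻¹ * intA (Dn g u))))) :=
            mul_le_mul_of_nonneg_left (mul_le_mul_of_nonneg_left h2 Real.pi_pos.le) hB0
        _ = _ := by rw [hA]; ring
    have hN0 : 0 ≤ intA (Nn u) := intA_basic.1 _ (Nn_nonneg u)
    have h7 : A * ε * intA (Nn u) ≤ κ / 2 * intA (Nn u) := mul_le_mul_of_nonneg_right hAε hN0
    rw [← hκ] at h1
    have h8 : κ * intA (Nn u) ≤ B * (Real.pi * ∑ i, ∫ x, |E i (Nn u).1 x| ∂mu)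
        + ∫ x, χ x * ev x (Nn u) ∂mu := h1
    linarith
  obtain ⟨A', hA'⟩ : ∃ A' : ℝ, A' = max (A * ε⁻¹) 1 := ⟨_, rfl⟩
  have hA'1 : 1 ≤ A' := by rw [hA']; exact le_max_right _ _
  have hA'A : A * ε⁻¹ ≤ A' := by rw [hA']; exact le_max_left _ _
  obtain ⟨q, hq⟩ : ∃ q : ℝ, q = r * (κ / 2) / (6 * A' * (R + 1)) := ⟨_, rfl⟩
  refine ⟨q, by rw [hq]; positivity, fun u hu => ?_⟩
  have hb := FPF.bochner (FD g) u hu
  have hE : En ρ (FPF.d3 (FD g) u, FPF.del3 (FD g) u) =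
      intA (ρ * ((1/24 : ℝ) • (∑ a, ∑ b, ∑ c, ∑ d, FPF.d3 (FD g) u a b c d ^ 2)
        + (1/2 : ℝ) • (∑ b, ∑ c, FPF.del3 (FD g) u b c ^ 2))) := by
    unfold En
    rw [mul_add, map_add, mul_smul_comm, mul_smul_comm, map_smul, map_smul, smul_eq_mul,
      smul_eq_mul]
  rw [hE, hb, mul_add, mul_add, map_add, map_add, divergence g ρ hρ, add_zero, mul_smul_comm,
    map_smul, smul_eq_mul]
  obtain ⟨I1, hI1⟩ : ∃ I1 : ℝ, I1 = ∫ x, χ x * ev x (Nn u) ∂mu := ⟨_, rfl⟩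
  have hI10 : 0 ≤ I1 := by
    rw [hI1]
    exact integral_nonneg fun x => mul_nonneg (hχ0 x) (Nn_nonneg u x)
  have hD0 : 0 ≤ intA (Dn g u) := intA_basic.1 _ (Dn_nonneg g u)
  have hN0 : 0 ≤ intA (Nn u) := intA_basic.1 _ (Nn_nonneg u)
  have h1 : r * intA (Dn g u) ≤
      intA (ρ * ∑ a, ∑ b, ∑ c, ∑ d, FPF.nab3 (FD g) u a b c d ^ 2) := by
    have h2 : r * intA (Dn g u) = intA (r • Dn g u) := by rw [map_smul, smul_eq_mul]
    rw [h2]
    apply intA_basic.2.1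
    intro x
    show ev x (r • Dn g u) ≤ ev x (ρ * Dn g u)
    rw [map_smul, map_mul, smul_eq_mul]
    exact mul_le_mul_of_nonneg_right (hρr x) (Dn_nonneg g u x)
  have hcN : Continuous fun x => ev x (Nn u) := sm_cont (Nn u).1 (Nn u).2
  have h3 : r * I1 ≤ intA (ρ * FPF.Tform (fun a b c d => FPF.Rm (FD g) a b d c) u) := by
    rw [hI1, ← integral_const_mul]
    refine integral_mono (integrable_of_cont _ (continuous_const.mul (hχc.mul hcN)))
      (integrable_ev _) fun x => ?_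
    have halt : FPA.Alt3 (fun a b c => ev x (u a b c)) := by
      refine ⟨fun a b c => ?_, fun a b c => ?_⟩
      · show ev x (u a b c) = - ev x (u b a c)
        rw [hu.1 a b c, map_neg]
      · show ev x (u a b c) = - ev x (u a c b)
        rw [hu.2 a b c, map_neg]
    have h4 := hT x (fun a b c => ev x (u a b c)) halt
    rw [← link_T, ← ev_Nn] at h4
    show r * (χ x * ev x (Nn u)) ≤
      ev x (ρ * FPF.Tform (fun a b c d => FPF.Rm (FD g) a b d c) u)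
    rw [map_mul]
    have h5 : 0 ≤ χ x * ev x (Nn u) := mul_nonneg (hχ0 x) (Nn_nonneg u x)
    calc r * (χ x * ev x (Nn u)) ≤ ev x ρ * (χ x * ev x (Nn u)) :=
          mul_le_mul_of_nonneg_right (hρr x) h5
      _ ≤ _ := mul_le_mul_of_nonneg_left h4 (hρ.1 x).le
  have h6 : Bf ρ u u ≤ (R + 1) * intA (Nn u) := by
    have h7 : (R + 1) * intA (Nn u) = intA ((R + 1) • Nn u) := by rw [map_smul, smul_eq_mul]
    rw [h7]
    show intA (ρ * Nn u) ≤ _
    apply intA_basic.2.1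
    intro x
    rw [map_smul, map_mul, smul_eq_mul]
    refine mul_le_mul_of_nonneg_right ?_ (Nn_nonneg u x)
    have := (abs_le.1 (hρR x)).2
    linarith
  have h8 := hP u
  rw [← hI1] at h8
  -- `κ / 2 ∫ N ≤ 6 A' (1/6 ∫ D + I1)`
  have h9 : κ / 2 * intA (Nn u) ≤ 6 * A' * (1 / 6 * intA (Dn g u) + I1) := by
    have h10 : A * ε⁻¹ * intA (Dn g u) ≤ A' * intA (Dn g u) := mul_le_mul_of_nonneg_right hA'A hD0
    nlinarith
  have h11 : r * (1 / 6 * intA (Dn g u) + I1) ≤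
      1 / 6 * intA (ρ * ∑ a, ∑ b, ∑ c, ∑ d, FPF.nab3 (FD g) u a b c d ^ 2)
        + intA (ρ * FPF.Tform (fun a b c d => FPF.Rm (FD g) a b d c) u) := by
    linarith
  refine le_trans ?_ h11
  rw [hq]
  have hden : 0 < 6 * A' * (R + 1) := by positivity
  calc r * (κ / 2) / (6 * A' * (R + 1)) * Bf ρ u u
      ≤ r * (κ / 2) / (6 * A' * (R + 1)) * ((R + 1) * intA (Nn u)) :=
        mul_le_mul_of_nonneg_left h6 (by positivity)
    _ = r * (κ / 2 * intA (Nn u)) / (6 * A') := by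
        field_simp
    _ ≤ r * (6 * A' * (1 / 6 * intA (Dn g u) + I1)) / (6 * A') := by
        gcongr
    _ = r * (1 / 6 * intA (Dn g u) + I1) := by
        field_simp

end Pool.Agent.KS6_31.CO
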