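import Pool.Graph.R_seed8.Helper427.FPA.Defs

/-! The choice of the multiplier of the first Bianchi identity with weights at most `8 |z|²`
(for MP_b50944_gt). -/

namespace Pool.Agent.KS6_31.CO

theorem alloc (κ m1 m2 m3 : ℝ) (hκ : 0 ≤ κ) (h1 : 0 ≤ m1) (h2 : 0 ≤ m2) (h3 : 0 ≤ m3)
    (h : 2 * κ ≤ min κ m1 + min κ m2 + min κ m3) :
    ∃ d1 d2 d3 : ℝ, (0 ≤ d1 ∧ d1 ≤ κ ∧ d1 ≤ m1) ∧ (0 ≤ d2 ∧ d2 ≤ κ ∧ d2 ≤ m2) ∧
      (0 ≤ d3 ∧ d3 ≤ κ ∧ d3 ≤ m3) ∧ d1 + d2 + d3 = 2 * κ := by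
  have a1 : 0 ≤ min κ m1 := le_min hκ h1
  have a2 : 0 ≤ min κ m2 := le_min hκ h2
  have a3 : 0 ≤ min κ m3 := le_min hκ h3
  obtain ⟨S, hS⟩ : ∃ S, S = min κ m1 + min κ m2 + min κ m3 := ⟨_, rfl⟩
  rw [← hS] at h
  rcases eq_or_lt_of_le (show 0 ≤ S by rw [hS]; positivity) with h0 | h0
  · have hk : κ = 0 := by linarith
    exact ⟨0, 0, 0, ⟨le_rfl, hκ, h1⟩, ⟨le_rfl, hκ, h2⟩, ⟨le_rfl, hκ, h3⟩, by rw [hk]; ring⟩
  · have ht0 : 0 ≤ 2 * κ / S := by positivity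
    have ht1 : 2 * κ / S ≤ 1 := by rw [div_le_one h0]; exact h
    have key : ∀ m, 0 ≤ min κ m → 0 ≤ 2 * κ / S * min κ m ∧ 2 * κ / S * min κ m ≤ κ ∧
        2 * κ / S * min κ m ≤ m := by
      intro m hm
      have : 2 * κ / S * min κ m ≤ min κ m := by nlinarith
      exact ⟨mul_nonneg ht0 hm, this.trans (min_le_left _ _), this.trans (min_le_right _ _)⟩
    refine ⟨_, _, _, key m1 a1, key m2 a2, key m3 a3, ?_⟩
    rw [← mul_add, ← mul_add, ← hS]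
    field_simp

theorem sum_min (Z x y w κ : ℝ) (hκ : 0 ≤ κ)
    (h : κ = 4 * Z ^ 2 - 2 * (Z ^ 2 + x ^ 2 + y ^ 2 + w ^ 2)) :
    2 * κ ≤ min κ (2 * (Z - x) ^ 2) + min κ (2 * (Z - y) ^ 2) + min κ (2 * (Z - w) ^ 2) := by
  rcases min_choice κ (2 * (Z - x) ^ 2) with h1 | h1 <;>
  rcases min_choice κ (2 * (Z - y) ^ 2) with h2 | h2 <;>
  rcases min_choice κ (2 * (Z - w) ^ 2) with h3 | h3 <;> rw [h1, h2, h3]
  · linarith
  · nlinarith [sq_nonneg (Z - w)]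
  · nlinarith [sq_nonneg (Z - y)]
  · nlinarith [sq_nonneg (Z - y - w), sq_nonneg (y - w), sq_nonneg x]
  · nlinarith [sq_nonneg (Z - x)]
  · nlinarith [sq_nonneg (Z - x - w), sq_nonneg (x - w), sq_nonneg y]
  · nlinarith [sq_nonneg (Z - x - y), sq_nonneg (x - y), sq_nonneg w]
  · nlinarith [sq_nonneg (3 * x - Z), sq_nonneg (3 * y - Z), sq_nonneg (3 * w - Z)]

/-- the off-diagonal Cartan entries -/
def nn (z k : Fin 4 → ℝ) (a b : Fin 4) : ℝ :=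
  8 * (z a ^ 2 + z b ^ 2) - 4 * (∑ c, z c ^ 2) + 2 * (k a + k b)

theorem nn_symm (z k : Fin 4 → ℝ) (a b : Fin 4) : nn z k a b = nn z k b a := by
  unfold nn
  ring

/-- the sum over all ordered pairs is four times a sum of three terms -/
theorem nn_sum (z k : Fin 4 → ℝ) (hk : ∑ a, k a = 0) :
    ∑ a, ∑ b, (if a = b then 0 else |nn z k a b|) =
      4 * (|nn z k 0 1| + |nn z k 0 2| + |nn z k 0 3|) := by
  rw [Fin.sum_univ_four] at hk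
  have h23 : nn z k 2 3 = - nn z k 0 1 := by
    unfold nn; rw [Fin.sum_univ_four]; linarith
  have h13 : nn z k 1 3 = - nn z k 0 2 := by
    unfold nn; rw [Fin.sum_univ_four]; linarith
  have h12 : nn z k 1 2 = - nn z k 0 3 := by
    unfold nn; rw [Fin.sum_univ_four]; linarith
  have s10 := nn_symm z k 1 0
  have s20 := nn_symm z k 2 0
  have s30 := nn_symm z k 3 0
  have s21 := nn_symm z k 2 1
  have s31 := nn_symm z k 3 1
  have s32 := nn_symm z k 3 2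
  simp only [Fin.sum_univ_four]
  simp only [s10, s20, s30, s21, s31, s32, h23, h13, h12, abs_neg]
  simp
  ring

/-- the properties of the multiplier -/
def Cert (z k : Fin 4 → ℝ) : Prop :=
  ∑ a, k a = 0 ∧
    (∀ a b, a ≠ b → 0 ≤ 4 * (z a - z b) ^ 2 + 2 * (k a + k b) ∧
      4 * (z a - z b) ^ 2 + 2 * (k a + k b) ≤ 8 * ∑ c, z c ^ 2) ∧
    (∀ a b, a ≠ b → 0 ≤ 4 * (z a + z b) ^ 2 + 2 * (k a + k b) ∧
      4 * (z a + z b) ^ 2 + 2 * (k a + k b) ≤ 8 * ∑ c, z c ^ 2) ∧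
    (∀ a, 0 ≤ 16 * z a ^ 2 + 4 * k a ∧ 16 * z a ^ 2 + 4 * k a ≤ 8 * ∑ c, z c ^ 2) ∧
    (∀ a b, a ≠ b → k a + k b ≤ 2 * ∑ c, z c ^ 2) ∧
    ∑ a, ∑ b, (if a = b then 0 else |nn z k a b|) ≤ 16 * ∑ c, z c ^ 2

theorem abs_sub_sq_le (a b : ℝ) : (|a| - |b|) ^ 2 ≤ (a - b) ^ 2 ∧ (|a| - |b|) ^ 2 ≤ (a + b) ^ 2 := by
  have h1 : |a| * |b| = |a * b| := (abs_mul a b).symm
  have h2 := le_abs_self (a * b)
  have h3 := neg_abs_le (a * b)
  have h4 := sq_abs a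
  have h5 := sq_abs b
  constructor <;> nlinarith

theorem cert_zero (z : Fin 4 → ℝ) (h : ∀ a, z a ^ 2 ≤ (∑ c, z c ^ 2) / 2) : Cert z 0 := by
  have hpair : ∀ a b : Fin 4, a ≠ b → z a ^ 2 + z b ^ 2 ≤ ∑ c, z c ^ 2 := by
    intro a b hab
    have h1 := Finset.add_sum_erase Finset.univ (fun c => z c ^ 2) (Finset.mem_univ a)
    have h2 : z b ^ 2 ≤ ∑ c ∈ Finset.univ.erase a, z c ^ 2 :=
      Finset.single_le_sum (f := fun c => z c ^ 2) (fun c _ => sq_nonneg (z c))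
        (Finset.mem_erase.mpr ⟨hab.symm, Finset.mem_univ b⟩)
    linarith
  have hs0 : 0 ≤ ∑ c, z c ^ 2 := Finset.sum_nonneg fun c _ => sq_nonneg _
  refine ⟨by simp, ?_, ?_, ?_, ?_, ?_⟩
  · intro a b hab
    have := hpair a b hab
    simp only [Pi.zero_apply]
    constructor <;> nlinarith [sq_nonneg (z a - z b), sq_nonneg (z a + z b)]
  · intro a b hab
    have := hpair a b hab
    simp only [Pi.zero_apply]
    constructor <;> nlinarith [sq_nonneg (z a - z b), sq_nonneg (z a + z b)]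
  · intro a
    have := h a
    simp only [Pi.zero_apply]
    constructor <;> nlinarith [sq_nonneg (z a)]
  · intro a b _
    simp only [Pi.zero_apply]
    linarith
  · rw [nn_sum z 0 (by simp)]
    have h0 := h 0
    have h1 := h 1
    have h2 := h 2
    have h3 := h 3
    have q0 := sq_nonneg (z 0)
    have q1 := sq_nonneg (z 1)
    have q2 := sq_nonneg (z 2)
    have q3 := sq_nonneg (z 3)
    unfold nn
    simp only [Pi.zero_apply]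
    rw [Fin.sum_univ_four] at *
    rcases abs_cases (8 * (z 0 ^ 2 + z 1 ^ 2) - 4 * (z 0 ^ 2 + z 1 ^ 2 + z 2 ^ 2 + z 3 ^ 2) +
      2 * ((0 : ℝ) + 0)) with ⟨e1, _⟩ | ⟨e1, _⟩ <;>
    rcases abs_cases (8 * (z 0 ^ 2 + z 2 ^ 2) - 4 * (z 0 ^ 2 + z 1 ^ 2 + z 2 ^ 2 + z 3 ^ 2) +
      2 * ((0 : ℝ) + 0)) with ⟨e2, _⟩ | ⟨e2, _⟩ <;>
    rcases abs_cases (8 * (z 0 ^ 2 + z 3 ^ 2) - 4 * (z 0 ^ 2 + z 1 ^ 2 + z 2 ^ 2 + z 3 ^ 2) +
      2 * ((0 : ℝ) + 0)) with ⟨e3, _⟩ | ⟨e3, _⟩ <;>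
    rw [e1, e2, e3] <;> linarith

theorem cert_first (z : Fin 4 → ℝ) (h : (∑ c, z c ^ 2) / 2 ≤ z 0 ^ 2) : ∃ k, Cert z k := by
  obtain ⟨s, hs⟩ : ∃ s, s = ∑ c, z c ^ 2 := ⟨_, rfl⟩
  have hs' : s = z 0 ^ 2 + z 1 ^ 2 + z 2 ^ 2 + z 3 ^ 2 := by rw [hs, Fin.sum_univ_four]
  rw [← hs] at h
  obtain ⟨κ, hκ⟩ : ∃ κ, κ = 4 * z 0 ^ 2 - 2 * s := ⟨_, rfl⟩
  have hκ0 : 0 ≤ κ := by linarith
  have hm := sum_min |z 0| |z 1| |z 2| |z 3| κ hκ0 (by simp only [sq_abs]; rw [hκ, hs'])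
  obtain ⟨d1, d2, d3, ⟨e1, e2, e3⟩, ⟨f1, f2, f3⟩, ⟨g1, g2, g3⟩, hd⟩ :=
    alloc κ _ _ _ hκ0 (by positivity) (by positivity) (by positivity) hm
  have p1 := abs_sub_sq_le (z 0) (z 1)
  have p2 := abs_sub_sq_le (z 0) (z 2)
  have p3 := abs_sub_sq_le (z 0) (z 3)
  obtain ⟨k, k0, k1, k2, k3⟩ : ∃ k : Fin 4 → ℝ, k 0 = -κ ∧ k 1 = κ - d1 ∧ k 2 = κ - d2 ∧
      k 3 = κ - d3 := ⟨![-κ, κ - d1, κ - d2, κ - d3], rfl, rfl, rfl, rfl⟩
  have q0 := sq_nonneg (z 0)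
  have q1 := sq_nonneg (z 1)
  have q2 := sq_nonneg (z 2)
  have q3 := sq_nonneg (z 3)
  -- bounds for pairs, in terms of the two signs at once
  have key : ∀ a b : Fin 4, a ≠ b →
      (0 ≤ 4 * (z a - z b) ^ 2 + 2 * (k a + k b) ∧ 4 * (z a - z b) ^ 2 + 2 * (k a + k b) ≤ 8 * s) ∧
      (0 ≤ 4 * (z a + z b) ^ 2 + 2 * (k a + k b) ∧ 4 * (z a + z b) ^ 2 + 2 * (k a + k b) ≤ 8 * s) := by
    have hsymm : ∀ a b : Fin 4,
      ((0 ≤ 4 * (z a - z b) ^ 2 + 2 * (k a + k b) ∧ 4 * (z a - z b) ^ 2 + 2 * (k a + k b) ≤ 8 * s) ∧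
      (0 ≤ 4 * (z a + z b) ^ 2 + 2 * (k a + k b) ∧ 4 * (z a + z b) ^ 2 + 2 * (k a + k b) ≤ 8 * s)) →
      ((0 ≤ 4 * (z b - z a) ^ 2 + 2 * (k b + k a) ∧ 4 * (z b - z a) ^ 2 + 2 * (k b + k a) ≤ 8 * s) ∧
      (0 ≤ 4 * (z b + z a) ^ 2 + 2 * (k b + k a) ∧ 4 * (z b + z a) ^ 2 + 2 * (k b + k a) ≤ 8 * s)) := by
      intro a b hab
      have r1 : (z b - z a) ^ 2 = (z a - z b) ^ 2 := by ring
      rw [r1, add_comm (z b) (z a), add_comm (k b) (k a)]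
      exact hab
    have h01 : (0 ≤ 4 * (z 0 - z 1) ^ 2 + 2 * (k 0 + k 1) ∧ 4 * (z 0 - z 1) ^ 2 + 2 * (k 0 + k 1) ≤ 8 * s) ∧
      (0 ≤ 4 * (z 0 + z 1) ^ 2 + 2 * (k 0 + k 1) ∧ 4 * (z 0 + z 1) ^ 2 + 2 * (k 0 + k 1) ≤ 8 * s) := by
      rw [k0, k1]
      refine ⟨⟨?_, ?_⟩, ?_, ?_⟩
      · linarith only [e3, p1.1, sq_nonneg (z 0 - z 1)]
      · linarith only [e1, sq_nonneg (z 0 + z 1), hs', q2, q3]
      · linarith only [e3, p1.2, sq_nonneg (z 0 + z 1)]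
      · linarith only [e1, sq_nonneg (z 0 - z 1), hs', q2, q3]
    have h02 : (0 ≤ 4 * (z 0 - z 2) ^ 2 + 2 * (k 0 + k 2) ∧ 4 * (z 0 - z 2) ^ 2 + 2 * (k 0 + k 2) ≤ 8 * s) ∧
      (0 ≤ 4 * (z 0 + z 2) ^ 2 + 2 * (k 0 + k 2) ∧ 4 * (z 0 + z 2) ^ 2 + 2 * (k 0 + k 2) ≤ 8 * s) := by
      rw [k0, k2]
      refine ⟨⟨?_, ?_⟩, ?_, ?_⟩
      · linarith only [f3, p2.1, sq_nonneg (z 0 - z 2)]
      · linarith only [f1, sq_nonneg (z 0 + z 2), hs', q1, q3]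
      · linarith only [f3, p2.2, sq_nonneg (z 0 + z 2)]
      · linarith only [f1, sq_nonneg (z 0 - z 2), hs', q1, q3]
    have h03 : (0 ≤ 4 * (z 0 - z 3) ^ 2 + 2 * (k 0 + k 3) ∧ 4 * (z 0 - z 3) ^ 2 + 2 * (k 0 + k 3) ≤ 8 * s) ∧
      (0 ≤ 4 * (z 0 + z 3) ^ 2 + 2 * (k 0 + k 3) ∧ 4 * (z 0 + z 3) ^ 2 + 2 * (k 0 + k 3) ≤ 8 * s) := by
      rw [k0, k3]
      refine ⟨⟨?_, ?_⟩, ?_, ?_⟩
      · linarith only [g3, p3.1, sq_nonneg (z 0 - z 3)]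
      · linarith only [g1, sq_nonneg (z 0 + z 3), hs', q1, q2]
      · linarith only [g3, p3.2, sq_nonneg (z 0 + z 3)]
      · linarith only [g1, sq_nonneg (z 0 - z 3), hs', q1, q2]
    have h12 : (0 ≤ 4 * (z 1 - z 2) ^ 2 + 2 * (k 1 + k 2) ∧ 4 * (z 1 - z 2) ^ 2 + 2 * (k 1 + k 2) ≤ 8 * s) ∧
      (0 ≤ 4 * (z 1 + z 2) ^ 2 + 2 * (k 1 + k 2) ∧ 4 * (z 1 + z 2) ^ 2 + 2 * (k 1 + k 2) ≤ 8 * s) := by
      rw [k1, k2]
      refine ⟨⟨?_, ?_⟩, ?_, ?_⟩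
      · linarith only [e2, f2, sq_nonneg (z 1 - z 2)]
      · linarith only [g2, hd, sq_nonneg (z 1 + z 2), hs', hκ, q0, q1, q2, q3]
      · linarith only [e2, f2, sq_nonneg (z 1 + z 2)]
      · linarith only [g2, hd, sq_nonneg (z 1 - z 2), hs', hκ, q0, q1, q2, q3]
    have h13 : (0 ≤ 4 * (z 1 - z 3) ^ 2 + 2 * (k 1 + k 3) ∧ 4 * (z 1 - z 3) ^ 2 + 2 * (k 1 + k 3) ≤ 8 * s) ∧
      (0 ≤ 4 * (z 1 + z 3) ^ 2 + 2 * (k 1 + k 3) ∧ 4 * (z 1 + z 3) ^ 2 + 2 * (k 1 + k 3) ≤ 8 * s) := by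
      rw [k1, k3]
      refine ⟨⟨?_, ?_⟩, ?_, ?_⟩
      · linarith only [e2, g2, sq_nonneg (z 1 - z 3)]
      · linarith only [f2, hd, sq_nonneg (z 1 + z 3), hs', hκ, q0, q1, q2, q3]
      · linarith only [e2, g2, sq_nonneg (z 1 + z 3)]
      · linarith only [f2, hd, sq_nonneg (z 1 - z 3), hs', hκ, q0, q1, q2, q3]
    have h23 : (0 ≤ 4 * (z 2 - z 3) ^ 2 + 2 * (k 2 + k 3) ∧ 4 * (z 2 - z 3) ^ 2 + 2 * (k 2 + k 3) ≤ 8 * s) ∧
      (0 ≤ 4 * (z 2 + z 3) ^ 2 + 2 * (k 2 + k 3) ∧ 4 * (z 2 + z 3) ^ 2 + 2 * (k 2 + k 3) ≤ 8 * s) := by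
      rw [k2, k3]
      refine ⟨⟨?_, ?_⟩, ?_, ?_⟩
      · linarith only [f2, g2, sq_nonneg (z 2 - z 3)]
      · linarith only [e2, hd, sq_nonneg (z 2 + z 3), hs', hκ, q0, q1, q2, q3]
      · linarith only [f2, g2, sq_nonneg (z 2 + z 3)]
      · linarith only [e2, hd, sq_nonneg (z 2 - z 3), hs', hκ, q0, q1, q2, q3]
    intro a b hab
    fin_cases a <;> fin_cases b
    · exact absurd rfl hab
    · exact h01
    · exact h02
    · exact h03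
    · exact hsymm 0 1 h01
    · exact absurd rfl hab
    · exact h12
    · exact h13
    · exact hsymm 0 2 h02
    · exact hsymm 1 2 h12
    · exact absurd rfl hab
    · exact h23
    · exact hsymm 0 3 h03
    · exact hsymm 1 3 h13
    · exact hsymm 2 3 h23
    · exact absurd rfl hab
  have hk0 : ∑ a, k a = 0 := by
    rw [Fin.sum_univ_four, k0, k1, k2, k3]
    linarith
  refine ⟨k, hk0, ?_, ?_, ?_, ?_, ?_⟩
  · intro a b hab
    rw [← hs]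
    exact (key a b hab).1
  · intro a b hab
    rw [← hs]
    exact (key a b hab).2
  · intro a
    rw [← hs]
    fin_cases a
    · show 0 ≤ 16 * z 0 ^ 2 + 4 * k 0 ∧ 16 * z 0 ^ 2 + 4 * k 0 ≤ 8 * s
      rw [k0]
      constructor
      · linarith only [hκ, hs', q0, q1, q2, q3]
      · linarith only [hκ, hs', q0, q1, q2, q3]
    · show 0 ≤ 16 * z 1 ^ 2 + 4 * k 1 ∧ 16 * z 1 ^ 2 + 4 * k 1 ≤ 8 * s
      rw [k1]
      constructor
      · linarith only [e2, q1]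
      · linarith only [e1, hκ, hs', q0, q1, q2, q3]
    · show 0 ≤ 16 * z 2 ^ 2 + 4 * k 2 ∧ 16 * z 2 ^ 2 + 4 * k 2 ≤ 8 * s
      rw [k2]
      constructor
      · linarith only [f2, q2]
      · linarith only [f1, hκ, hs', q0, q1, q2, q3]
    · show 0 ≤ 16 * z 3 ^ 2 + 4 * k 3 ∧ 16 * z 3 ^ 2 + 4 * k 3 ≤ 8 * s
      rw [k3]
      constructor
      · linarith only [g2, q3]
      · linarith only [g1, hκ, hs', q0, q1, q2, q3]
  · rw [← hs]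
    have hκs : κ ≤ 2 * s := by linarith only [hκ, hs', q0, q1, q2, q3]
    have hs0 : 0 ≤ s := by linarith only [hs', q0, q1, q2, q3]
    have hsy : ∀ a b : Fin 4, k a + k b ≤ 2 * s → k b + k a ≤ 2 * s := by
      intro a b h; linarith
    have h01 : k 0 + k 1 ≤ 2 * s := by rw [k0, k1]; linarith only [e1, hs0]
    have h02 : k 0 + k 2 ≤ 2 * s := by rw [k0, k2]; linarith only [f1, hs0]
    have h03 : k 0 + k 3 ≤ 2 * s := by rw [k0, k3]; linarith only [g1, hs0]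
    have h12 : k 1 + k 2 ≤ 2 * s := by rw [k1, k2]; linarith only [g2, hd, hκs]
    have h13 : k 1 + k 3 ≤ 2 * s := by rw [k1, k3]; linarith only [f2, hd, hκs]
    have h23 : k 2 + k 3 ≤ 2 * s := by rw [k2, k3]; linarith only [e2, hd, hκs]
    intro a b hab
    fin_cases a <;> fin_cases b
    · exact absurd rfl hab
    · exact h01
    · exact h02
    · exact h03
    · exact hsy 0 1 h01
    · exact absurd rfl hab
    · exact h12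
    · exact h13
    · exact hsy 0 2 h02
    · exact hsy 1 2 h12
    · exact absurd rfl hab
    · exact h23
    · exact hsy 0 3 h03
    · exact hsy 1 3 h13
    · exact hsy 2 3 h23
    · exact absurd rfl hab
  · rw [nn_sum z k hk0, ← hs]
    have n1 : nn z k 0 1 = 2 * κ + 8 * z 1 ^ 2 - 2 * d1 := by
      unfold nn; rw [← hs, k0, k1, hκ]; ring
    have n2 : nn z k 0 2 = 2 * κ + 8 * z 2 ^ 2 - 2 * d2 := by
      unfold nn; rw [← hs, k0, k2, hκ]; ring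
    have n3 : nn z k 0 3 = 2 * κ + 8 * z 3 ^ 2 - 2 * d3 := by
      unfold nn; rw [← hs, k0, k3, hκ]; ring
    rw [n1, n2, n3, abs_of_nonneg (by linarith), abs_of_nonneg (by linarith),
      abs_of_nonneg (by linarith)]
    linarith only [hκ, hs', hd]

theorem cert_perm (z k : Fin 4 → ℝ) (σ : Equiv.Perm (Fin 4)) (h : Cert (z ∘ σ) k) :
    Cert z (k ∘ σ.symm) := by
  obtain ⟨h1, h2, h3, h4, h5, h6⟩ := h
  have hs : ∑ c, (z ∘ σ) c ^ 2 = ∑ c, z c ^ 2 := Equiv.sum_comp σ (fun c => z c ^ 2)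
  rw [hs] at h2 h3 h4 h5 h6
  refine ⟨?_, ?_, ?_, ?_, ?_, ?_⟩
  · rw [← h1]
    exact Equiv.sum_comp σ.symm k
  · intro a b hab
    have := h2 (σ.symm a) (σ.symm b) (fun h => hab (σ.symm.injective h))
    simpa using this
  · intro a b hab
    have := h3 (σ.symm a) (σ.symm b) (fun h => hab (σ.symm.injective h))
    simpa using this
  · intro a
    have := h4 (σ.symm a)
    simpa using this
  · intro a b hab
    have := h5 (σ.symm a) (σ.symm b) (fun h => hab (σ.symm.injective h))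
    simpa using this
  · refine le_trans (le_of_eq ?_) h6
    rw [← Equiv.sum_comp σ]
    refine Finset.sum_congr rfl fun a _ => ?_
    rw [← Equiv.sum_comp σ]
    refine Finset.sum_congr rfl fun b _ => ?_
    have e1 : nn z (k ∘ σ.symm) (σ a) (σ b) = nn (z ∘ σ) k a b := by
      unfold nn
      rw [hs]
      simp
    rw [e1]
    simp only [EmbeddingLike.apply_eq_iff_eq]

/-- The choice of the multiplier of the first Bianchi identity. -/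
theorem certificate (z : Fin 4 → ℝ) : ∃ k, Cert z k := by
  by_cases hall : ∀ a, z a ^ 2 ≤ (∑ c, z c ^ 2) / 2
  · exact ⟨0, cert_zero z hall⟩
  · push Not at hall
    obtain ⟨a, ha⟩ := hall
    obtain ⟨k, hk⟩ := cert_first (z ∘ Equiv.swap 0 a) (by
      have hs : ∑ c, (z ∘ Equiv.swap 0 a) c ^ 2 = ∑ c, z c ^ 2 :=
        Equiv.sum_comp (Equiv.swap 0 a) (fun c => z c ^ 2)
      rw [hs]
      simpa using ha.le)
    exact ⟨_, cert_perm z k _ hk⟩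

end Pool.Agent.KS6_31.CO
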