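import Pool.Graph.R_seed8.Helper427.FPT.P_coercive

/-! The Weitzenboeck form of a metric on `S³ × S³` which is nonnegative everywhere and positive
at a point (for MP_b50944_gt). -/

open scoped Quaternion ContDiff
open MeasureTheory FPM Filter Topology

namespace Pool.Agent.KS6_31.CO

open FPT

theorem coer (g : Geo) (h : ∀ x u, FPA.Alt3 u → 0 ≤ FPA.Tform (Kx g x) u) (x0 : M)
    (h0 : ∀ u, FPA.Alt3 u → u ≠ 0 → 0 < FPA.Tform (Kx g x0) u) : ∃ (χ : M → ℝ) (B : ℝ), Continuous χ ∧ (∀ x, 0 ≤ χ x) ∧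
      (∀ x, χ x ≤ B) ∧ 0 < χ x0 ∧ ∀ x (u : FPA.T3), FPA.Alt3 u →
      χ x * ∑ a, ∑ b, ∑ c, u a b c ^ 2 ≤ FPA.Tform (Kx g x) u := by
  obtain ⟨K0, hK0⟩ : ∃ K0 : Set FPA.T3, K0 =
      {u : FPA.T3 | FPA.Alt3 u ∧ ∑ a, ∑ b, ∑ c, u a b c ^ 2 = 1} := ⟨_, rfl⟩
  have hc : IsCompact K0 := by
    rw [hK0]
    exact coercive_compact
  obtain ⟨Φ, hΦ, hΦc⟩ : ∃ Φ : M → FPA.T3 → ℝ, (∀ x u, Φ x u = FPA.Tform (Kx g x) u) ∧
      Continuous (fun p : M × FPA.T3 => Φ p.1 p.2) :=
    ⟨fun x u => FPA.Tform (Kx g x) u, fun _ _ => rfl, coercive_cont g⟩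
  have hT0 : ∀ x u, FPA.Alt3 u → 0 ≤ Φ x u := by
    intro x u hu
    rw [hΦ]
    exact h x u hu
  have hTp : ∀ u, FPA.Alt3 u → u ≠ 0 → 0 < Φ x0 u := by
    intro u hu hne
    rw [hΦ]
    exact h0 u hu hne
  have hsm : ∀ x (s : ℝ) u, Φ x (s • u) = s ^ 2 * Φ x u := by
    intro x s u
    rw [hΦ, hΦ]
    exact coercive_T_smul (Kx g x) s u
  simp only [← hΦ]
  clear hΦ h h0
  have hmin : ∃ m : ℝ, 0 < m ∧ ∀ u ∈ K0, m ≤ Φ x0 u := by
    rcases K0.eq_empty_or_nonempty with he | he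
    · refine ⟨1, one_pos, fun u hu => ?_⟩
      rw [he] at hu
      exact hu.elim
    · have hpair : Continuous fun u : FPA.T3 => ((x0, u) : M × FPA.T3) := by fun_prop
      have hcont : Continuous fun u : FPA.T3 => Φ x0 u := hΦc.comp hpair
      obtain ⟨u0, hu0, hum⟩ := hc.exists_isMinOn he hcont.continuousOn
      refine ⟨Φ x0 u0, ?_, fun u hu => isMinOn_iff.1 hum u hu⟩
      have h1 := hu0
      rw [hK0] at h1
      refine hTp u0 h1.1 ?_
      intro hz
      have h2 := h1.2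
      rw [hz] at h2
      simp at h2
  obtain ⟨m, hm, hmin⟩ := hmin
  have hev : ∀ᶠ x in 𝓝 x0, ∀ u ∈ K0, m / 2 < Φ x u := by
    refine hc.eventually_forall_of_forall_eventually fun u hu => ?_
    have h1 : m / 2 < Φ x0 u := by
      have := hmin u hu
      linarith
    have h5 : ContinuousAt (fun p : M × FPA.T3 => Φ p.1 p.2) (x0, u) := hΦc.continuousAt
    exact h5.eventually (lt_mem_nhds h1)
  obtain ⟨r, hr, hball⟩ := Metric.eventually_nhds_iff.1 hev
  refine ⟨fun x => m / 2 * max 0 (1 - dist x x0 / r), m / 2, ?_, ?_, ?_, ?_, ?_⟩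
  · exact continuous_const.mul (continuous_const.max (continuous_const.sub
      ((continuous_id.dist continuous_const).div_const r)))
  · intro x
    exact mul_nonneg (by linarith) (le_max_left _ _)
  · intro x
    have h1 : max 0 (1 - dist x x0 / r) ≤ 1 := by
      refine max_le zero_le_one ?_
      have : 0 ≤ dist x x0 / r := div_nonneg dist_nonneg hr.le
      linarith
    calc m / 2 * max 0 (1 - dist x x0 / r) ≤ m / 2 * 1 :=
          mul_le_mul_of_nonneg_left h1 (by linarith)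
      _ = m / 2 := mul_one _
  · show 0 < m / 2 * max 0 (1 - dist x0 x0 / r)
    rw [dist_self, zero_div, sub_zero, max_eq_right zero_le_one, mul_one]
    linarith
  · intro x u hu
    obtain ⟨n, hn⟩ : ∃ n : ℝ, n = ∑ a, ∑ b, ∑ c, u a b c ^ 2 := ⟨_, rfl⟩
    rw [← hn]
    have hn0 : 0 ≤ n := by rw [hn]; exact coercive_N_nonneg u
    by_cases hd : dist x x0 < r
    · have h1 : max 0 (1 - dist x x0 / r) ≤ 1 := by
        refine max_le zero_le_one ?_
        have : 0 ≤ dist x x0 / r := div_nonneg dist_nonneg hr.le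
        linarith
      have h2 : m / 2 * max 0 (1 - dist x x0 / r) ≤ m / 2 := by
        calc m / 2 * max 0 (1 - dist x x0 / r) ≤ m / 2 * 1 :=
              mul_le_mul_of_nonneg_left h1 (by linarith)
          _ = m / 2 := mul_one _
      refine (mul_le_mul_of_nonneg_right h2 hn0).trans ?_
      rcases hn0.eq_or_lt with h0 | h0
      · rw [← h0, mul_zero]
        exact hT0 x u hu
      · obtain ⟨s, hs⟩ : ∃ s : ℝ, s = (Real.sqrt n)⁻¹ := ⟨_, rfl⟩
        have hs2 : s ^ 2 * n = 1 := by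
          rw [hs, inv_pow, Real.sq_sqrt hn0]
          exact inv_mul_cancel₀ h0.ne'
        have hmem : s • u ∈ K0 := by
          rw [hK0]
          refine ⟨coercive_alt_smul s u hu, ?_⟩
          rw [coercive_N_smul, ← hn, hs2]
        have h3 := (hball hd _ hmem).le
        rw [hsm] at h3
        calc m / 2 * n ≤ (s ^ 2 * Φ x u) * n := mul_le_mul_of_nonneg_right h3 hn0
          _ = (s ^ 2 * n) * Φ x u := by ring
          _ = Φ x u := by rw [hs2, one_mul]
    · push Not at hd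
      have h1 : max 0 (1 - dist x x0 / r) = 0 := by
        refine max_eq_left ?_
        have : 1 ≤ dist x x0 / r := by rwa [le_div_iff₀ hr, one_mul]
        linarith
      show m / 2 * max 0 (1 - dist x x0 / r) * n ≤ Φ x u
      rw [h1, mul_zero, zero_mul]
      exact hT0 x u hu

end Pool.Agent.KS6_31.CO
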