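import Pool.Agent.KS6_31.CO.Boch
import Pool.Graph.R_seed8.Helper427.FPT.P_contradiction

/-! The contradiction from the nonvanishing third Betti number (for MP_b50944_gt). -/

open scoped Quaternion ContDiff
open MeasureTheory FPM Filter Topology

namespace Pool.Agent.KS6_31.CO

open FPT

/-- There is no metric on `S³ × S³` whose Weitzenboeck form on 3-forms is nonnegative everywhere
and positive definite at one point. -/
theorem contradiction (g : Geo) (h : ∀ x u, FPA.Alt3 u → 0 ≤ FPA.Tform (Kx g x) u) (x0 : M)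
    (h0 : ∀ u, FPA.Alt3 u → u ≠ 0 → 0 < FPA.Tform (Kx g x0) u) : False := by
  obtain ⟨ρ, hρ⟩ := rho_exists g
  obtain ⟨c', C', hc', hC', hB1, hB2, hE1, hE2⟩ := Bf_compare g ρ hρ
  obtain ⟨c0, hc0, hboch⟩ := bochner g ρ hρ h x0 h0
  obtain ⟨CL, hCL, hLb⟩ := L_bdd g ρ hρ
  obtain ⟨lin3, lindel, lin2⟩ := lin_ops g
  obtain ⟨-, hq0, -, -⟩ := q2_props
  obtain ⟨hJA1, hJA2⟩ := JA_props
  -- constants of the first order operators
  choose K3 hK30 hK3 using fun a b c d => (good_d3 g a b c d).1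
  choose K2 hK20 hK2 using fun b c => (good_del3 g b c).1
  have hS0 : ∀ u : Ten, 0 ≤ ∑ a, ∑ b, ∑ c, q2 (u a b c) := fun u =>
    Finset.sum_nonneg fun a _ => Finset.sum_nonneg fun b _ => Finset.sum_nonneg fun c _ => hq0 _
  have hSB : ∀ u : Ten, ∑ a, ∑ b, ∑ c, q2 (u a b c) ≤ c'⁻¹ * Bf ρ u u := fun u => by
    rw [inv_mul_eq_div, le_div_iff₀ hc', mul_comm]
    exact hB1 u
  have hBpos : ∀ u : Ten, 0 ≤ Bf ρ u u := fun u =>
    le_trans (mul_nonneg hc'.le (hS0 u)) (hB1 u)
  set K : ℝ := (∑ a, ∑ b, ∑ c, ∑ d, K3 a b c d) + ∑ b, ∑ c, K2 b c with hK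
  have hK0 : 0 ≤ K := add_nonneg
    (Finset.sum_nonneg fun a _ => Finset.sum_nonneg fun b _ => Finset.sum_nonneg fun c _ =>
      Finset.sum_nonneg fun d _ => hK30 a b c d)
    (Finset.sum_nonneg fun b _ => Finset.sum_nonneg fun c _ => hK20 b c)
  -- the data
  let D3 : Ten →ₗ[ℝ] (Fin 6 → Fin 6 → Fin 6 → Fin 6 → SmA) :=
    contradiction_lm (FPF.d3 (FD g)) lin3
  let DL : Ten →ₗ[ℝ] (Fin 6 → Fin 6 → SmA) := contradiction_lm (FPF.del3 (FD g)) lindel
  let D2 : (Fin 6 → Fin 6 → SmA) →ₗ[ℝ] Ten := contradiction_lm (FPF.d2 (FD g)) lin2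
  let D : Ten →ₗ[ℝ] contradiction_W := D3.prod DL
  have hD3 : ∀ u, D3 u = FPF.d3 (FD g) u := fun u => rfl
  have hDL : ∀ u, DL u = FPF.del3 (FD g) u := fun u => rfl
  have hD2 : ∀ u, D2 u = FPF.d2 (FD g) u := fun u => rfl
  have hD : ∀ u, D u = (FPF.d3 (FD g) u, FPF.del3 (FD g) u) := fun u => rfl
  let P : Submodule ℝ Ten :=
    { carrier := {u | FPF.Alt3 u}
      add_mem' := by
        intro u v hu hv
        refine ⟨fun a b c => ?_, fun a b c => ?_⟩
        · simp only [Pi.add_apply]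
          rw [hu.1 a b c, hv.1 a b c, neg_add]
        · simp only [Pi.add_apply]
          rw [hu.2 a b c, hv.2 a b c, neg_add]
      zero_mem' := by
        refine ⟨fun a b c => ?_, fun a b c => ?_⟩ <;> simp
      smul_mem' := by
        intro r u hu
        refine ⟨fun a b c => ?_, fun a b c => ?_⟩
        · simp only [Pi.smul_apply]
          rw [hu.1 a b c, smul_neg]
        · simp only [Pi.smul_apply]
          rw [hu.2 a b c, smul_neg] }
  let A2 : Submodule ℝ (Fin 6 → Fin 6 → SmA) :=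
    { carrier := {β | FPF.Alt2 β}
      add_mem' := by
        intro u v hu hv a b
        simp only [Pi.add_apply]
        rw [hu a b, hv a b, neg_add]
      zero_mem' := by
        intro a b
        simp
      smul_mem' := by
        intro r u hu a b
        simp only [Pi.smul_apply]
        rw [hu a b, smul_neg] }
  have hPm : ∀ u, u ∈ P ↔ FPF.Alt3 u := fun u => Iff.rfl
  have hA2m : ∀ β, β ∈ A2 ↔ FPF.Alt2 β := fun u => Iff.rfl
  let X : Submodule ℝ Ten := A2.map D2
  have hXP : X ≤ P := by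
    rintro _ ⟨β, hβ, rfl⟩
    exact FPF.d2_alt (FD g) β hβ
  let α0 : Ten := FPF.wedge (th g)
  have hα : α0 ∈ P := FPF.wedge_alt (th g)
  have hα3 : FPF.d3 (FD g) α0 = 0 := by
    funext a b c d
    exact FPF.wedge_closed (FD g) (th g) 2 (th_hyp g) a b c d
  have hX3 : ∀ w ∈ X, D3 w = 0 := by
    rintro _ ⟨β, hβ, rfl⟩
    funext a b c d
    exact FPF.d3_d2 (FD g) β hβ a b c d
  have hdiff1 : ∀ m u a b c d, (D (contradiction_J m u) - (contradiction_JW m) (D u)).1 a b c d
      = FPF.d3 (FD g) (JT m u) a b c d - JA m (FPF.d3 (FD g) u a b c d) := fun _ _ _ _ _ _ => rfl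
  have hdiff2 : ∀ m u b c, (D (contradiction_J m u) - (contradiction_JW m) (D u)).2 b c
      = FPF.del3 (FD g) (JT m u) b c - JA m (FPF.del3 (FD g) u b c) := fun _ _ _ _ => rfl
  refine FPX.abstract_hodge (contradiction_B ρ) (contradiction_Bf_symm ρ) hBpos P X hXP α0 hα
    (En ρ) hE2 ?_ D contradiction_J ?_ (fun m => (contradiction_JW m).comp D) c0
    (C' * K * c'⁻¹ + C' * c'⁻¹) hc0 (by positivity) 4 ?_ ?_ ?_ ?_ ?_ ?_
    (contradiction_lm (Lf g) (contradiction_Lf_lin g)) CL ?_ ?_ ?_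
  · -- hW2
    intro w w'
    have h1 := contradiction_En_par ρ w w'
    have h2 := hE2 (w - w')
    linarith
  · -- hJP
    intro m u hu
    refine ⟨fun a b c => ?_, fun a b c => ?_⟩
    · show JA m (u a b c) = - JA m (u b a c)
      rw [hu.1 a b c, map_neg]
    · show JA m (u a b c) = - JA m (u a c b)
      rw [hu.2 a b c, map_neg]
  · -- h1
    intro u hu
    exact hboch u hu
  · -- h2
    intro m hm u
    show En ρ (D (contradiction_J m u) - (contradiction_JW m) (D u)) ≤ _ * Bf ρ u u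
    refine (hE1 _).trans ?_
    have e1 : ∑ a, ∑ b, ∑ c, ∑ d,
        q2 ((D (contradiction_J m u) - (contradiction_JW m) (D u)).1 a b c d)
        ≤ (∑ a, ∑ b, ∑ c, ∑ d, K3 a b c d) * ∑ a, ∑ b, ∑ c, q2 (u a b c) := by
      simp only [Finset.sum_mul]
      refine Finset.sum_le_sum fun a _ => Finset.sum_le_sum fun b _ =>
        Finset.sum_le_sum fun c _ => Finset.sum_le_sum fun d _ => ?_
      rw [hdiff1]
      exact hK3 a b c d m hm u
    have e2 : ∑ b, ∑ c, q2 ((D (contradiction_J m u) - (contradiction_JW m) (D u)).2 b c)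
        ≤ (∑ b, ∑ c, K2 b c) * ∑ a, ∑ b, ∑ c, q2 (u a b c) := by
      simp only [Finset.sum_mul]
      refine Finset.sum_le_sum fun b _ => Finset.sum_le_sum fun c _ => ?_
      rw [hdiff2]
      exact hK2 b c m hm u
    calc C' * ((∑ a, ∑ b, ∑ c, ∑ d,
          q2 ((D (contradiction_J m u) - (contradiction_JW m) (D u)).1 a b c d))
          + ∑ b, ∑ c, q2 ((D (contradiction_J m u) - (contradiction_JW m) (D u)).2 b c))
        ≤ C' * (K * ∑ a, ∑ b, ∑ c, q2 (u a b c)) := by
          refine mul_le_mul_of_nonneg_left ?_ hC'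
          rw [hK, add_mul]
          exact add_le_add e1 e2
      _ ≤ C' * (K * (c'⁻¹ * Bf ρ u u)) :=
          mul_le_mul_of_nonneg_left (mul_le_mul_of_nonneg_left (hSB u) hK0) hC'
      _ ≤ (C' * K * c'⁻¹ + C' * c'⁻¹) * Bf ρ u u := by
          have : 0 ≤ C' * c'⁻¹ * Bf ρ u u := mul_nonneg (by positivity) (hBpos u)
          nlinarith [this]
  · -- h3
    intro u
    show Tendsto (fun m => En ρ (D (contradiction_J m u) - (contradiction_JW m) (D u))) atTop (𝓝 0)
    have hlim : Tendsto (fun m => C' * ((∑ a, ∑ b, ∑ c, ∑ d,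
          q2 (FPF.d3 (FD g) (JT m u) a b c d - JA m (FPF.d3 (FD g) u a b c d)))
          + ∑ b, ∑ c, q2 (FPF.del3 (FD g) (JT m u) b c - JA m (FPF.del3 (FD g) u b c))))
        atTop (𝓝 (C' * ((∑ a : Fin 6, ∑ b : Fin 6, ∑ c : Fin 6, ∑ d : Fin 6, (0 : ℝ))
          + ∑ b : Fin 6, ∑ c : Fin 6, (0 : ℝ)))) := by
      refine Tendsto.const_mul _ (Tendsto.add ?_ ?_)
      · refine tendsto_finset_sum _ fun a _ => tendsto_finset_sum _ fun b _ =>
          tendsto_finset_sum _ fun c _ => tendsto_finset_sum _ fun d _ => ?_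
        exact (good_d3 g a b c d).2 u
      · refine tendsto_finset_sum _ fun b _ => tendsto_finset_sum _ fun c _ => ?_
        exact (good_del3 g b c).2 u
    have hz : C' * ((∑ a : Fin 6, ∑ b : Fin 6, ∑ c : Fin 6, ∑ d : Fin 6, (0 : ℝ))
          + ∑ b : Fin 6, ∑ c : Fin 6, (0 : ℝ)) = 0 := by simp
    rw [hz] at hlim
    exact squeeze_zero (fun m => hE2 _) (fun m => hE1 _) hlim
  · -- h4
    intro m _ u
    show Bf ρ (JT m u) (JT m u) ≤ _ * Bf ρ u u
    calc Bf ρ (JT m u) (JT m u) ≤ C' * ∑ a, ∑ b, ∑ c, q2 (JT m u a b c) := hB2 _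
      _ ≤ C' * ∑ a, ∑ b, ∑ c, q2 (u a b c) := by
          refine mul_le_mul_of_nonneg_left ?_ hC'
          refine Finset.sum_le_sum fun a _ => Finset.sum_le_sum fun b _ =>
            Finset.sum_le_sum fun c _ => ?_
          exact hJA1 m (u a b c)
      _ ≤ C' * (c'⁻¹ * Bf ρ u u) := mul_le_mul_of_nonneg_left (hSB u) hC'
      _ ≤ (C' * K * c'⁻¹ + C' * c'⁻¹) * Bf ρ u u := by
          have : 0 ≤ C' * K * c'⁻¹ * Bf ρ u u := mul_nonneg (by positivity) (hBpos u)
          nlinarith [this]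
  · -- h4'
    intro u
    show Tendsto (fun m => Bf ρ (JT m u - u) (JT m u - u)) atTop (𝓝 0)
    have hlim : Tendsto (fun m => C' * ∑ a, ∑ b, ∑ c, q2 (JA m (u a b c) - u a b c))
        atTop (𝓝 (C' * ∑ a : Fin 6, ∑ b : Fin 6, ∑ c : Fin 6, (0 : ℝ))) := by
      refine Tendsto.const_mul _ ?_
      refine tendsto_finset_sum _ fun a _ => tendsto_finset_sum _ fun b _ =>
        tendsto_finset_sum _ fun c _ => ?_
      exact hJA2 (u a b c)
    have hz : C' * ∑ a : Fin 6, ∑ b : Fin 6, ∑ c : Fin 6, (0 : ℝ) = 0 := by simp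
    rw [hz] at hlim
    exact squeeze_zero (fun m => hBpos _) (fun m => hB2 _) hlim
  · -- h5
    intro m
    obtain ⟨n, β, C, hC, hβ, hu⟩ := weak_coclosed g ρ hρ m
    refine ⟨n, fun j => D2 (β j), C' * C, by positivity,
      fun j => Submodule.mem_map_of_mem (hβ j), ?_⟩
    intro u huX
    have huP : FPF.Alt3 u := by
      have h1 : u - α0 ∈ P := hXP huX
      have h2 := P.add_mem h1 hα
      rwa [sub_add_cancel] at h2
    have hu3 : D3 u = 0 := by
      have h1 := hX3 _ huX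
      rw [map_sub, sub_eq_zero] at h1
      rw [h1]
      exact hα3
    show En ρ ((contradiction_JW m) (D u)) ≤ C' * C * ∑ j, (Bf ρ u (D2 (β j))) ^ 2
    refine (hE1 _).trans ?_
    rw [mul_assoc]
    refine mul_le_mul_of_nonneg_left ?_ hC'
    have e1 : ∑ a, ∑ b, ∑ c, ∑ d, q2 (((contradiction_JW m) (D u)).1 a b c d) = 0 := by
      refine Finset.sum_eq_zero fun a _ => Finset.sum_eq_zero fun b _ =>
        Finset.sum_eq_zero fun c _ => Finset.sum_eq_zero fun d _ => ?_
      have e2 : ((contradiction_JW m) (D u)).1 a b c d = JA m (D3 u a b c d) := rfl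
      rw [e2, hu3]
      show q2 (JA m 0) = 0
      rw [map_zero]
      exact contradiction_q2_zero
    rw [e1, zero_add]
    exact hu u huP
  · -- hL0
    rintro _ ⟨β, hβ, rfl⟩
    exact L_exact g β hβ
  · -- hL1
    have : (contradiction_lm (Lf g) (contradiction_Lf_lin g)) α0 = 1 := L_wedge g
    rw [this]
    exact one_ne_zero
  · -- hL2
    intro u
    exact hLb u

end Pool.Agent.KS6_31.CO
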