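import Pool.Graph.R_seed8.Helper427.FPA.Defs
import Pool.Graph.R_seed8.Helper427.FPA.P_fourpos_rot
import Pool.Graph.R_seed8.Helper427.FPA.P_fourpos_of_eig

/-! Weighted sums of ordered values, majorization, and the condition
`∑ ω_k λ_k ≥ c` on curvature operators with eigenvalues `λ₁ ≤ λ₂ ≤ …` (for MP_b50944_gt). -/

namespace Pool.Agent.KS6_31.CO

open FPA

/-- Abel summation -/
theorem abel (a R : ℕ → ℝ) (hR : Monotone R) (hA : ∀ n, ∑ i ∈ Finset.range n, a i ≤ 0) (n : ℕ) :
    (∑ i ∈ Finset.range (n + 1), a i) * R n ≤ ∑ i ∈ Finset.range (n + 1), a i * R i := by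
  induction n with
  | zero => simp
  | succ n ih =>
    rw [Finset.sum_range_succ, Finset.sum_range_succ _ (n + 1), add_mul]
    have h1 := hA (n + 1)
    have h2 := hR (Nat.le_succ n)
    nlinarith

/-- If the weights `μ` are majorized by `ω`, then a `μ`-weighted sum is at least the `ω`-weighted
sum of the smallest values. -/
theorem major {ι : Type} [Fintype ι] [DecidableEq ι] {n : ℕ} (hn : n ≤ Fintype.card ι)
    (r μ : ι → ℝ) (ω : Fin n → ℝ) (c : ℝ) (hω : Antitone ω) (hμ : ∀ i, 0 ≤ μ i)
    (hsum : ∑ i, μ i = ∑ k, ω k)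
    (hmaj : ∀ l, ∑ i, max (μ i - ω l) 0 ≤ ∑ k, max (ω k - ω l) 0)
    (h : ∀ p : Fin n → ι, Function.Injective p → c ≤ ∑ k, ω k * r (p k)) :
    c ≤ ∑ i, μ i * r i := by
  obtain ⟨N, hN⟩ : ∃ N, N = Fintype.card ι := ⟨_, rfl⟩
  rw [← hN] at hn
  let e0 : ι ≃ Fin N := (Fintype.equivFinOfCardEq hN.symm)
  let σ : Equiv.Perm (Fin N) := Tuple.sort (fun j => r (e0.symm j))
  let e : Fin N ≃ ι := σ.trans e0.symm
  have hmono : Monotone fun j => r (e j) := Tuple.monotone_sort (fun j => r (e0.symm j))
  rcases Nat.eq_zero_or_pos N with h0 | h0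
  · -- no index
    have hn0 : n = 0 := by omega
    subst hn0
    have h1 := h (fun k => k.elim0) (fun k => k.elim0)
    have hemp : IsEmpty ι := Fintype.card_eq_zero_iff.1 (by omega)
    simpa using h1
  -- extend by the last value
  let R : ℕ → ℝ := fun j => r (e ⟨min j (N - 1), by omega⟩)
  have hRm : Monotone R := fun i j hij => hmono (by
    show (⟨min i (N - 1), _⟩ : Fin N) ≤ ⟨min j (N - 1), _⟩
    rw [Fin.mk_le_mk]
    omega)
  let m : ℕ → ℝ := fun j => if hj : j < N then μ (e ⟨j, hj⟩) else 0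
  let w : ℕ → ℝ := fun j => if hj : j < n then ω ⟨j, hj⟩ else 0
  have hm0 : ∀ j, 0 ≤ m j := by
    intro j
    simp only [m]
    split_ifs
    · exact hμ _
    · exact le_rfl
  have hRN : ∀ j (hj : j < N), R j = r (e ⟨j, hj⟩) := by
    intro j hj
    simp only [R]
    congr 2
    apply Fin.ext
    show min j (N - 1) = j
    omega
  have sm : ∀ f : ι → ℝ, ∑ i, f i = ∑ j ∈ Finset.range N, if hj : j < N then f (e ⟨j, hj⟩) else 0 := by
    intro f
    rw [← Equiv.sum_comp e, Finset.sum_range]
    refine Finset.sum_congr rfl fun j _ => ?_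
    rw [dif_pos j.2]
  have hwn : ∀ f : ℕ → ℝ, ∑ j ∈ Finset.range N, w j * f j = ∑ k : Fin n, ω k * f k := by
    intro f
    rw [Finset.sum_range, ← Finset.sum_range (fun j => w j * f j)]
    rw [← Finset.sum_subset (Finset.range_mono hn) (fun j _ hj => by
      have : ¬ j < n := by simpa using hj
      simp only [w, dif_neg this, zero_mul]), Finset.sum_range]
    refine Finset.sum_congr rfl fun k _ => ?_
    simp only [w, dif_pos k.2]
  have htot : ∑ j ∈ Finset.range N, m j = ∑ k, ω k := by
    rw [← hsum, sm μ]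
  have hwtot : ∑ j ∈ Finset.range N, w j = ∑ k, ω k := by
    have := hwn (fun _ => 1)
    simpa using this
  -- partial sums
  have hpart : ∀ j, ∑ i ∈ Finset.range j, (m i - w i) ≤ 0 := by
    intro j
    rw [Finset.sum_sub_distrib, sub_nonpos]
    rcases Nat.eq_zero_or_pos j with hj0 | hj0
    · subst hj0; simp
    by_cases hj : j ≤ n
    · -- threshold `ω (j - 1)`
      obtain ⟨l, hl⟩ : ∃ l : Fin n, l = ⟨j - 1, by omega⟩ := ⟨_, rfl⟩
      have h1 : ∑ i ∈ Finset.range j, m i ≤ ∑ i, max (μ i - ω l) 0 + j * ω l := by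
        have h2 : ∑ i ∈ Finset.range j, m i ≤ ∑ i ∈ Finset.range j, (max (m i - ω l) 0 + ω l) :=
          Finset.sum_le_sum fun i _ => by
            have := le_max_left (m i - ω l) 0
            linarith
        rw [Finset.sum_add_distrib, Finset.sum_const, Finset.card_range, nsmul_eq_mul] at h2
        have h3 : ∑ i ∈ Finset.range j, max (m i - ω l) 0 ≤ ∑ i, max (μ i - ω l) 0 := by
          rw [sm (fun i => max (μ i - ω l) 0)]
          refine (Finset.sum_le_sum_of_subset_of_nonneg (Finset.range_mono (hj.trans hn))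
            (fun i _ _ => le_max_right _ _)).trans (le_of_eq ?_)
          refine Finset.sum_congr rfl fun i hi => ?_
          have hi' : i < N := Finset.mem_range.1 hi
          simp only [m, dif_pos hi']
        linarith
      have h4 : ∑ k, max (ω k - ω l) 0 + j * ω l = ∑ i ∈ Finset.range j, w i := by
        have h5 : ∑ k, max (ω k - ω l) 0 = ∑ i ∈ Finset.range j, (w i - ω l) := by
          have h6 : ∑ k, max (ω k - ω l) 0 = ∑ i ∈ Finset.range n, max (w i - ω l) 0 := by
            rw [Finset.sum_range]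
            refine Finset.sum_congr rfl fun k _ => ?_
            simp only [w, dif_pos k.2]
          rw [h6, ← Finset.sum_subset (Finset.range_mono hj) (fun i hi hij => by
            have hin : i < n := Finset.mem_range.1 hi
            have hij' : ¬ i < j := by simpa using hij
            have hle : ω ⟨i, hin⟩ ≤ ω l := hω (by
              rw [hl, Fin.mk_le_mk]; omega)
            simp only [w, dif_pos hin]
            exact max_eq_right (by linarith))]
          refine Finset.sum_congr rfl fun i hi => ?_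
          have hij : i < j := Finset.mem_range.1 hi
          have hin : i < n := by omega
          have hle : ω l ≤ ω ⟨i, hin⟩ := hω (by
            rw [hl, Fin.mk_le_mk]; omega)
          simp only [w, dif_pos hin]
          exact max_eq_left (by linarith)
        rw [h5, Finset.sum_sub_distrib, Finset.sum_const, Finset.card_range, nsmul_eq_mul]
        ring
      have h7 := hmaj l
      linarith
    · -- all of `ω` is used
      have h1 : ∑ i ∈ Finset.range j, w i = ∑ k, ω k := by
        rw [← hwtot]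
        rcases le_total j N with hjN | hjN
        · refine Finset.sum_subset (Finset.range_mono hjN) fun i _ hij => ?_
          have hij' : ¬ i < j := by simpa using hij
          have : ¬ i < n := by omega
          simp only [w, dif_neg this]
        · symm
          refine Finset.sum_subset (Finset.range_mono hjN) fun i _ hij => ?_
          have hij' : ¬ i < N := by simpa using hij
          have : ¬ i < n := by omega
          simp only [w, dif_neg this]
      rw [h1, ← htot]
      rcases le_total j N with hjN | hjN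
      · exact Finset.sum_le_sum_of_subset_of_nonneg (Finset.range_mono hjN) fun i _ _ => hm0 i
      · refine le_of_eq ?_
        symm
        refine Finset.sum_subset (Finset.range_mono hjN) fun i _ hij => ?_
        have hij' : ¬ i < N := by simpa using hij
        simp only [m, dif_neg hij']
  have key := abel (fun j => m j - w j) R hRm hpart (N - 1)
  have hN1 : N - 1 + 1 = N := by omega
  rw [hN1, Finset.sum_sub_distrib, htot, hwtot, sub_self, zero_mul] at key
  simp only [sub_mul, Finset.sum_sub_distrib] at key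
  rw [hwn R] at key
  have hp := h (fun k => e ⟨k, lt_of_lt_of_le k.2 hn⟩) (fun k l hkl => by
    have := e.injective hkl
    exact Fin.ext (Fin.mk.inj_iff.1 this))
  have e1 : ∑ k : Fin n, ω k * R k = ∑ k : Fin n, ω k * r (e ⟨k, lt_of_lt_of_le k.2 hn⟩) := by
    refine Finset.sum_congr rfl fun k _ => ?_
    rw [hRN _ (lt_of_lt_of_le k.2 hn)]
  have e2 : ∑ j ∈ Finset.range N, m j * R j = ∑ i, μ i * r i := by
    rw [sm (fun i => μ i * r i)]
    refine Finset.sum_congr rfl fun j hj => ?_
    have hj' : j < N := Finset.mem_range.1 hj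
    rw [hRN j hj']
    simp only [m, dif_pos hj']
  rw [e1, e2] at key
  linarith

/-- For any orthonormal 2-vectors `ξ_k`, the sum of `ω_k` times the value of the quadratic form
at `ξ_k` is at least `c`. -/
def Low {n : ℕ} (ω : Fin n → ℝ) (K : T4) (c : ℝ) : Prop :=
  ∀ ξ : Fin n → T2, (∀ k a b, ξ k a b = - ξ k b a) →
    (∀ k l, ip2 (ξ k) (ξ l) = if k = l then 1 else 0) → c ≤ ∑ k, ω k * Kq K (ξ k) (ξ k)

theorem low_sub {n : ℕ} (ω : Fin n → ℝ) (K : T4) (c : ℝ) (h4 : Low ω K c) {ι : Type}
    [Fintype ι] [DecidableEq ι] (ξ : ι → T2)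
    (ha : ∀ k a b, ξ k a b = - ξ k b a) (ho : ∀ k l, ip2 (ξ k) (ξ l) = if k = l then 1 else 0)
    (p : Fin n → ι) (hp : Function.Injective p) :
    c ≤ ∑ k, ω k * Kq K (ξ (p k)) (ξ (p k)) :=
  h4 (fun k => ξ (p k)) (fun k a b => ha _ a b) (by
    intro k l
    rw [ho]
    by_cases h : k = l
    · rw [if_pos h, if_pos (by rw [h])]
    · rw [if_neg h, if_neg]
      intro h2
      exact h (hp h2))

theorem low_rot {n : ℕ} (ω : Fin n → ℝ) (O : Matrix (Fin 6) (Fin 6) ℝ) (hO : O * O.transpose = 1)
    (K : T4) (c : ℝ) (hK : Low ω K c) : Low ω (rot4 O K) c := by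
  intro ξ hanti hon
  have h := hK (fun k => rot2 O.transpose (ξ k)) ?_ ?_
  · simpa only [Kq_rot] using h
  · intro k a b
    simp only [rot2]
    rw [← Finset.sum_neg_distrib, Finset.sum_comm]
    refine Finset.sum_congr rfl fun i _ => ?_
    rw [← Finset.sum_neg_distrib]
    refine Finset.sum_congr rfl fun j _ => ?_
    rw [hanti k j i]
    ring
  · intro k l
    rw [ip2_rot O hO]
    exact hon k l

/-- Ky Fan for decreasing weights -/
theorem kyfan {ι : Type} [Fintype ι] [DecidableEq ι] {n : ℕ} (hn : n ≤ Fintype.card ι)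
    (ω : Fin n → ℝ) (hω : Antitone ω) (hω0 : ∀ k, 0 ≤ ω k)
    (A : Matrix ι ι ℝ) (hA : A.IsHermitian) (c : ℝ)
    (h : ∀ p : Fin n → ι, Function.Injective p → c ≤ ∑ k, ω k * hA.eigenvalues (p k))
    (v : Fin n → ι → ℝ) (hv : ∀ k l, ∑ i, v k i * v l i = if k = l then 1 else 0) :
    c ≤ ∑ k, ω k * ∑ i, ∑ j, A i j * v k i * v k j := by
  have inn : ∀ x y : EuclideanSpace ℝ ι, inner ℝ x y = ∑ i, x i * y i := by
    intro x y
    rw [PiLp.inner_apply]
    refine Finset.sum_congr rfl fun i _ => ?_
    simp [mul_comm]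
  set w := hA.eigenvectorBasis with hw
  let V : Fin n → EuclideanSpace ℝ ι := fun k => WithLp.toLp 2 (v k)
  have hVi : ∀ k i, V k i = v k i := fun _ _ => rfl
  have hV : Orthonormal ℝ V := by
    rw [orthonormal_iff_ite]
    intro k l
    rw [inn]
    simpa [hVi] using hv k l
  have eig : ∀ j i, ∑ l, A i l * w j l = hA.eigenvalues j * w j i := by
    intro j i
    have := congrFun (hA.mulVec_eigenvectorBasis j) i
    simpa [Matrix.mulVec, dotProduct] using this
  have sym : ∀ i j, A i j = A j i := by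
    intro i j
    have := hA.apply i j
    simpa using this.symm
  -- quadratic form
  have quad : ∀ k, ∑ i, ∑ j, A i j * v k i * v k j
      = ∑ j, (inner ℝ (w j) (V k)) ^ 2 * hA.eigenvalues j := by
    intro k
    let AV : EuclideanSpace ℝ ι := WithLp.toLp 2 (fun i => ∑ j, A i j * v k j)
    have h1 : ∑ i, ∑ j, A i j * v k i * v k j = inner ℝ (V k) AV := by
      rw [inn]
      refine Finset.sum_congr rfl fun i _ => ?_
      change _ = v k i * ∑ j, A i j * v k j
      rw [Finset.mul_sum]
      exact Finset.sum_congr rfl fun j _ => by ring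
    rw [h1, ← w.sum_inner_mul_inner]
    refine Finset.sum_congr rfl fun j _ => ?_
    have h2 : inner ℝ (w j) AV = hA.eigenvalues j * inner ℝ (w j) (V k) := by
      rw [inn, inn, Finset.mul_sum]
      change ∑ i, w j i * ∑ l, A i l * v k l = ∑ i, hA.eigenvalues j * (w j i * v k i)
      have e1 : ∀ i, w j i * ∑ l, A i l * v k l = ∑ l, w j i * (A i l * v k l) :=
        fun i => Finset.mul_sum _ _ _
      rw [Finset.sum_congr rfl fun i _ => e1 i, Finset.sum_comm]
      refine Finset.sum_congr rfl fun l _ => ?_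
      rw [← mul_assoc, ← eig j l, Finset.sum_mul]
      refine Finset.sum_congr rfl fun i _ => ?_
      rw [sym i l]; ring
    rw [h2, real_inner_comm]
    ring
  have tot : ∀ k, ∑ j, (inner ℝ (w j) (V k)) ^ 2 = 1 := by
    intro k
    have h7 : inner ℝ (V k) (V k) = (1 : ℝ) := by
      rw [inn]; simpa [hVi] using hv k k
    rw [← h7, ← w.sum_inner_mul_inner]
    refine Finset.sum_congr rfl fun j _ => ?_
    rw [real_inner_comm (V k) (w j)]
    ring
  have hrow : ∀ j, ∑ k, (inner ℝ (w j) (V k)) ^ 2 ≤ 1 := by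
    intro j
    have h3 := hV.sum_inner_products_le (x := w j) (s := Finset.univ)
    have h4 : ‖w j‖ = 1 := w.orthonormal.1 j
    rw [h4] at h3
    have h5 : ∑ k, (inner ℝ (w j) (V k)) ^ 2 = ∑ k, ‖inner ℝ (V k) (w j)‖ ^ 2 := by
      refine Finset.sum_congr rfl fun k _ => ?_
      rw [real_inner_comm, Real.norm_eq_abs, sq_abs]
    rw [← h5] at h3
    simpa using h3
  have key := major hn hA.eigenvalues (fun j => ∑ k, ω k * (inner ℝ (w j) (V k)) ^ 2) ω c hω
    (fun j => Finset.sum_nonneg fun k _ => mul_nonneg (hω0 k) (sq_nonneg _)) ?_ ?_ h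
  · refine key.trans (le_of_eq ?_)
    simp only [quad, Finset.sum_mul, Finset.mul_sum]
    rw [Finset.sum_comm]
    refine Finset.sum_congr rfl fun k _ => Finset.sum_congr rfl fun j _ => ?_
    ring
  · rw [Finset.sum_comm]
    refine Finset.sum_congr rfl fun k _ => ?_
    rw [← Finset.mul_sum, tot k, mul_one]
  · intro l
    have h1 : ∀ j, max (∑ k, ω k * (inner ℝ (w j) (V k)) ^ 2 - ω l) 0 ≤
        ∑ k, max (ω k - ω l) 0 * (inner ℝ (w j) (V k)) ^ 2 := by
      intro j
      refine max_le ?_ (Finset.sum_nonneg fun k _ => mul_nonneg (le_max_right _ _) (sq_nonneg _))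
      have h2 : ω l * ∑ k, (inner ℝ (w j) (V k)) ^ 2 ≤ ω l * 1 :=
        mul_le_mul_of_nonneg_left (hrow j) (hω0 l)
      have h3 : ∑ k, ω k * (inner ℝ (w j) (V k)) ^ 2 - ω l * ∑ k, (inner ℝ (w j) (V k)) ^ 2
          = ∑ k, (ω k - ω l) * (inner ℝ (w j) (V k)) ^ 2 := by
        rw [Finset.mul_sum, ← Finset.sum_sub_distrib]
        refine Finset.sum_congr rfl fun k _ => ?_
        ring
      have h4 : ∑ k, (ω k - ω l) * (inner ℝ (w j) (V k)) ^ 2 ≤
          ∑ k, max (ω k - ω l) 0 * (inner ℝ (w j) (V k)) ^ 2 :=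
        Finset.sum_le_sum fun k _ => mul_le_mul_of_nonneg_right (le_max_left _ _) (sq_nonneg _)
      linarith
    refine (Finset.sum_le_sum fun j _ => h1 j).trans (le_of_eq ?_)
    rw [Finset.sum_comm]
    refine Finset.sum_congr rfl fun k _ => ?_
    rw [← Finset.mul_sum, tot k, mul_one]

/-- the condition in terms of eigenvalues of the curvature operator matrix -/
theorem low_of_eig {n : ℕ} (hn : n ≤ 15) (ω : Fin n → ℝ) (hω : Antitone ω) (hω0 : ∀ k, 0 ≤ ω k)
    (K : T4) (hK : CurvT K) (c : ℝ)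
    (hA : (Matrix.of fun p q : {p : Fin 6 × Fin 6 // p.1 < p.2} =>
      K p.1.1 p.1.2 q.1.1 q.1.2).IsHermitian)
    (h : ∀ p : Fin n → {p : Fin 6 × Fin 6 // p.1 < p.2}, Function.Injective p →
      c ≤ ∑ k, ω k * hA.eigenvalues (p k)) : Low ω K c := by
  intro ξ halt hon
  have hz : ∀ k a, ξ k a a = 0 := fun k a => by linarith [halt k a a]
  have hcard : Fintype.card {p : Fin 6 × Fin 6 // p.1 < p.2} = 15 := by decide
  have key := kyfan (by rw [hcard]; exact hn) ω hω hω0 _ hA c h (fun k p => ξ k p.1.1 p.1.2) (by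
    intro k l
    have := hon k l
    unfold ip2 at this
    rw [pair_sum (fun a b => ξ k a b * ξ l a b) (fun a b => by
      rw [halt k a b, halt l a b]; ring) (fun a => by simp [hz])] at this
    rw [← this]; ring)
  have hq : ∀ k, Kq K (ξ k) (ξ k) = ∑ i : {p : Fin 6 × Fin 6 // p.1 < p.2},
      ∑ j : {p : Fin 6 × Fin 6 // p.1 < p.2},
      (Matrix.of fun p q : {p : Fin 6 × Fin 6 // p.1 < p.2} =>
      K p.1.1 p.1.2 q.1.1 q.1.2) i j * ξ k i.1.1 i.1.2 * ξ k j.1.1 j.1.2 := by
    intro k
    unfold Kq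
    rw [pair_sum (fun a b => ∑ c, ∑ d, K a b c d * ξ k a b * ξ k c d) (fun a b => by
        refine Finset.sum_congr rfl fun c _ => Finset.sum_congr rfl fun d _ => ?_
        rw [halt k a b, hK.anti1 a b]; ring) (fun a => by simp [hz])]
    have e2 : ∀ p : {p : Fin 6 × Fin 6 // p.1 < p.2},
        ∑ c, ∑ d, K p.1.1 p.1.2 c d * ξ k p.1.1 p.1.2 * ξ k c d
        = 2 * ∑ q : {p : Fin 6 × Fin 6 // p.1 < p.2},
          K p.1.1 p.1.2 q.1.1 q.1.2 * ξ k p.1.1 p.1.2 * ξ k q.1.1 q.1.2 := by
      intro p
      exact pair_sum (fun c d => K p.1.1 p.1.2 c d * ξ k p.1.1 p.1.2 * ξ k c d) (fun c d => by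
        rw [halt k c d, hK.anti2 _ _ c d]; ring) (fun a => by simp [hz])
    simp only [e2]
    rw [← Finset.mul_sum]
    simp only [Matrix.of_apply]
    ring
  simp only [hq]
  exact key

end Pool.Agent.KS6_31.CO
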