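import Pool.Graph.R_seed8.Helper427.FPM.P_flow
import Pool.Graph.R_seed8.Helper427.FPM.P_mu_prob
import Pool.Graph.R_seed8.Helper427.FPM.P_sm_cont
import Pool.Graph.R_seed8.Helper427.FPM.P_E_sm

/-! One-parameter subgroups of `S³ × S³` through any point (for MP_b50944_gt). -/

open scoped Quaternion ContDiff
open MeasureTheory FPM

namespace Pool.Agent.KS6_31.CO

/-- imaginary quaternion -/
noncomputable def im (n : Fin 3 → ℝ) : Q := ∑ i, n i • qu i

theorem im_comp (n : Fin 3 → ℝ) : (im n).re = 0 ∧ (im n).imI = n 0 ∧ (im n).imJ = n 1 ∧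
    (im n).imK = n 2 := by
  unfold im
  rw [Fin.sum_univ_three]
  refine ⟨?_, ?_, ?_, ?_⟩ <;> simp [qu]

theorem im_mul_self (n : Fin 3 → ℝ) (hn : ∑ i, n i ^ 2 = 1) : im n * im n = -(1 : Q) := by
  obtain ⟨h0, h1, h2, h3⟩ := im_comp n
  rw [Fin.sum_univ_three] at hn
  ext
  · rw [Quaternion.re_mul, h0, h1, h2, h3]
    simp only [Quaternion.re_neg, Quaternion.re_one]
    linarith
  · rw [Quaternion.imI_mul, h0, h1, h2, h3]
    simp only [Quaternion.imI_neg, Quaternion.imI_one]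
    ring
  · rw [Quaternion.imJ_mul, h0, h1, h2, h3]
    simp only [Quaternion.imJ_neg, Quaternion.imJ_one]
    ring
  · rw [Quaternion.imK_mul, h0, h1, h2, h3]
    simp only [Quaternion.imK_neg, Quaternion.imK_one]
    ring

/-- one-parameter group -/
noncomputable def cq (n : Fin 3 → ℝ) (θ t : ℝ) : Q :=
  Real.cos (t * θ) • (1 : Q) + Real.sin (t * θ) • im n

theorem cq_norm (n : Fin 3 → ℝ) (hn : ∑ i, n i ^ 2 = 1) (θ t : ℝ) : ‖cq n θ t‖ = 1 := by
  obtain ⟨h0, h1, h2, h3⟩ := im_comp n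
  rw [Fin.sum_univ_three] at hn
  have h : Quaternion.normSq (cq n θ t) = 1 := by
    have hcs := Real.cos_sq_add_sin_sq (t * θ)
    have e1 : (cq n θ t).re = Real.cos (t * θ) * 1 + Real.sin (t * θ) * (im n).re := rfl
    have e2 : (cq n θ t).imI = Real.cos (t * θ) * 0 + Real.sin (t * θ) * (im n).imI := rfl
    have e3 : (cq n θ t).imJ = Real.cos (t * θ) * 0 + Real.sin (t * θ) * (im n).imJ := rfl
    have e4 : (cq n θ t).imK = Real.cos (t * θ) * 0 + Real.sin (t * θ) * (im n).imK := rfl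
    rw [Quaternion.normSq_def', e1, e2, e3, e4, h0, h1, h2, h3]
    calc _ = Real.cos (t * θ) ^ 2 + Real.sin (t * θ) ^ 2 * (n 0 ^ 2 + n 1 ^ 2 + n 2 ^ 2) := by ring
      _ = 1 := by rw [hn, mul_one, hcs]
  rw [Quaternion.normSq_eq_norm_mul_self] at h
  have h0 := norm_nonneg (cq n θ t)
  nlinarith

theorem cq_hasDerivAt (n : Fin 3 → ℝ) (hn : ∑ i, n i ^ 2 = 1) (θ t : ℝ) :
    HasDerivAt (cq n θ) ((θ • im n) * cq n θ t) t := by
  have hl : HasDerivAt (fun t : ℝ => t * θ) θ t := by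
    simpa using (hasDerivAt_id t).mul_const θ
  have h1 : HasDerivAt (fun t : ℝ => Real.cos (t * θ) • (1 : Q))
      ((-Real.sin (t * θ) * θ) • (1 : Q)) t := hl.cos.smul_const _
  have h2 : HasDerivAt (fun t : ℝ => Real.sin (t * θ) • im n)
      ((Real.cos (t * θ) * θ) • im n) t := hl.sin.smul_const _
  have h3 := h1.add h2
  have e : (-Real.sin (t * θ) * θ) • (1 : Q) + (Real.cos (t * θ) * θ) • im n
      = (θ • im n) * cq n θ t := by
    unfold cq
    rw [mul_add, mul_smul_comm, mul_smul_comm, smul_mul_assoc, smul_mul_assoc, im_mul_self n hn,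
      mul_one, smul_smul, smul_smul]
    module
  rw [← e]
  exact h3

/-- every unit quaternion lies on a one-parameter subgroup -/
theorem exists_angle (q : Sph) : ∃ (n : Fin 3 → ℝ) (θ : ℝ), ∑ i, n i ^ 2 = 1 ∧ |θ| ≤ Real.pi ∧
    cq n θ 1 = (q : Q) := by
  obtain ⟨q, hq⟩ := q
  rw [mem_sphere_zero_iff_norm] at hq
  have hN : q.re ^ 2 + q.imI ^ 2 + q.imJ ^ 2 + q.imK ^ 2 = 1 := by
    have := Quaternion.normSq_eq_norm_mul_self q
    rw [hq, Quaternion.normSq_def'] at this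
    linarith
  have hre : -1 ≤ q.re ∧ q.re ≤ 1 := by
    constructor <;> nlinarith [sq_nonneg q.imI, sq_nonneg q.imJ, sq_nonneg q.imK]
  have hθ : |Real.arccos q.re| ≤ Real.pi := by
    rw [abs_of_nonneg (Real.arccos_nonneg _)]
    exact Real.arccos_le_pi _
  have hcos : Real.cos (Real.arccos q.re) = q.re := Real.cos_arccos hre.1 hre.2
  obtain ⟨s, hs⟩ : ∃ s, s = Real.sin (Real.arccos q.re) := ⟨_, rfl⟩
  have hs2 : s ^ 2 = q.imI ^ 2 + q.imJ ^ 2 + q.imK ^ 2 := by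
    have := Real.cos_sq_add_sin_sq (Real.arccos q.re)
    rw [hcos, ← hs] at this
    linarith
  have key : ∀ n : Fin 3 → ℝ, s * n 0 = q.imI → s * n 1 = q.imJ → s * n 2 = q.imK →
      cq n (Real.arccos q.re) 1 = q := by
    intro n h1 h2 h3
    obtain ⟨g0, g1, g2, g3⟩ := im_comp n
    unfold cq
    rw [one_mul, hcos, ← hs]
    ext
    · simp [g0]
    · simp [g1, h1]
    · simp [g2, h2]
    · simp [g3, h3]
  by_cases h0 : s = 0
  · rw [h0] at hs2 key
    have e1 : q.imI = 0 := by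
      have : q.imI ^ 2 = 0 := by nlinarith [sq_nonneg q.imI, sq_nonneg q.imJ, sq_nonneg q.imK]
      exact pow_eq_zero_iff two_ne_zero |>.1 this
    have e2 : q.imJ = 0 := by
      have : q.imJ ^ 2 = 0 := by nlinarith [sq_nonneg q.imI, sq_nonneg q.imJ, sq_nonneg q.imK]
      exact pow_eq_zero_iff two_ne_zero |>.1 this
    have e3 : q.imK = 0 := by
      have : q.imK ^ 2 = 0 := by nlinarith [sq_nonneg q.imI, sq_nonneg q.imJ, sq_nonneg q.imK]
      exact pow_eq_zero_iff two_ne_zero |>.1 this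
    refine ⟨![1, 0, 0], Real.arccos q.re, ?_, hθ, key _ ?_ ?_ ?_⟩
    · simp [Fin.sum_univ_three]
    · rw [e1]; simp
    · rw [e2]; simp
    · rw [e3]; simp
  · refine ⟨![q.imI / s, q.imJ / s, q.imK / s], Real.arccos q.re, ?_, hθ, key _ ?_ ?_ ?_⟩
    · rw [Fin.sum_univ_three]
      show (q.imI / s) ^ 2 + (q.imJ / s) ^ 2 + (q.imK / s) ^ 2 = 1
      rw [div_pow, div_pow, div_pow, ← add_div, ← add_div, ← hs2]
      exact div_self (pow_ne_zero 2 h0)
    · show s * (q.imI / s) = q.imI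
      field_simp
    · show s * (q.imJ / s) = q.imJ
      field_simp
    · show s * (q.imK / s) = q.imK
      field_simp

theorem comp_le_one (n : Fin 3 → ℝ) (hn : ∑ i, n i ^ 2 = 1) (i : Fin 3) : |n i| ≤ 1 := by
  have h1 : n i ^ 2 ≤ ∑ i, n i ^ 2 :=
    Finset.single_le_sum (f := fun i => n i ^ 2) (fun _ _ => sq_nonneg _) (Finset.mem_univ i)
  rw [hn] at h1
  exact (sq_le_one_iff_abs_le_one _).1 h1

/-- a path from `1` to `y` along a one-parameter subgroup -/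
theorem exists_path (y : M) : ∃ (c : ℝ → M) (b : Fin 6 → ℝ), Continuous c ∧ c 0 = 1 ∧ c 1 = y ∧
    (∀ i, |b i| ≤ Real.pi) ∧
    ∀ f, Sm f → ∀ x t, HasDerivAt (fun s => f (c s * x)) (∑ i, b i * E i f (c t * x)) t := by
  obtain ⟨n1, θ1, hn1, hθ1, hy1⟩ := exists_angle y.1
  obtain ⟨n2, θ2, hn2, hθ2, hy2⟩ := exists_angle y.2
  have hcont : ∀ (n : Fin 3 → ℝ) (θ : ℝ), Continuous (cq n θ) := by
    intro n θ
    unfold cq
    fun_prop
  let s1 : ℝ → Sph := fun t => ⟨cq n1 θ1 t, by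
    rw [mem_sphere_zero_iff_norm]; exact cq_norm n1 hn1 θ1 t⟩
  let s2 : ℝ → Sph := fun t => ⟨cq n2 θ2 t, by
    rw [mem_sphere_zero_iff_norm]; exact cq_norm n2 hn2 θ2 t⟩
  have hzero : ∀ (n : Fin 3 → ℝ) (θ : ℝ), cq n θ 0 = 1 := by
    intro n θ
    simp [cq]
  refine ⟨fun t => (s1 t, s2 t), ![θ1 * n1 0, θ1 * n1 1, θ1 * n1 2, θ2 * n2 0, θ2 * n2 1,
    θ2 * n2 2], ?_, ?_, ?_, ?_, ?_⟩
  · exact (Continuous.subtype_mk (hcont n1 θ1) _).prodMk (Continuous.subtype_mk (hcont n2 θ2) _)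
  · apply Prod.ext
    · exact Subtype.ext (hzero n1 θ1)
    · exact Subtype.ext (hzero n2 θ2)
  · apply Prod.ext
    · exact Subtype.ext hy1
    · exact Subtype.ext hy2
  · have hb : ∀ (θ : ℝ) (n : Fin 3 → ℝ) (i : Fin 3), |θ| ≤ Real.pi → ∑ i, n i ^ 2 = 1 →
        |θ * n i| ≤ Real.pi := by
      intro θ n i h1 h2
      rw [abs_mul]
      calc |θ| * |n i| ≤ Real.pi * 1 := mul_le_mul h1 (comp_le_one n h2 i) (abs_nonneg _)
            Real.pi_pos.le
        _ = Real.pi := mul_one _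
    intro i
    fin_cases i
    · exact hb θ1 n1 0 hθ1 hn1
    · exact hb θ1 n1 1 hθ1 hn1
    · exact hb θ1 n1 2 hθ1 hn1
    · exact hb θ2 n2 0 hθ2 hn2
    · exact hb θ2 n2 1 hθ2 hn2
    · exact hb θ2 n2 2 hθ2 hn2
  · intro f hf x t
    have e : (fun s => inc ((s1 s, s2 s) * x)) =
        fun s => (cq n1 θ1 s * (x.1 : Q), cq n2 θ2 s * (x.2 : Q)) := by
      funext s
      rfl
    have h1 : HasDerivAt (fun s => cq n1 θ1 s * (x.1 : Q)) ((θ1 • im n1) * cq n1 θ1 t * (x.1 : Q)) t :=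
      (cq_hasDerivAt n1 hn1 θ1 t).mul_const _
    have h2 : HasDerivAt (fun s => cq n2 θ2 s * (x.2 : Q)) ((θ2 • im n2) * cq n2 θ2 t * (x.2 : Q)) t :=
      (cq_hasDerivAt n2 hn2 θ2 t).mul_const _
    have h3 := h1.prodMk h2
    rw [← e] at h3
    have h4 := chain_aux f hf (fun s => (s1 s, s2 s) * x) t _ h3
    convert h4 using 1
    have hv : (((θ1 • im n1) * cq n1 θ1 t * (x.1 : Q), (θ2 • im n2) * cq n2 θ2 t * (x.2 : Q)) : Q × Q)
        = (θ1 * n1 0) • dir 0 (inc ((s1 t, s2 t) * x)) + (θ1 * n1 1) • dir 1 (inc ((s1 t, s2 t) * x))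
        + (θ1 * n1 2) • dir 2 (inc ((s1 t, s2 t) * x)) + (θ2 * n2 0) • dir 3 (inc ((s1 t, s2 t) * x))
        + (θ2 * n2 1) • dir 4 (inc ((s1 t, s2 t) * x)) + (θ2 * n2 2) • dir 5 (inc ((s1 t, s2 t) * x)) := by
      have hi1 : (inc ((s1 t, s2 t) * x)).1 = cq n1 θ1 t * (x.1 : Q) := rfl
      have hi2 : (inc ((s1 t, s2 t) * x)).2 = cq n2 θ2 t * (x.2 : Q) := rfl
      have d0 : dir 0 (inc ((s1 t, s2 t) * x)) = (qu 0 * (inc ((s1 t, s2 t) * x)).1, (0 : Q)) := rfl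
      have d1 : dir 1 (inc ((s1 t, s2 t) * x)) = (qu 1 * (inc ((s1 t, s2 t) * x)).1, (0 : Q)) := rfl
      have d2 : dir 2 (inc ((s1 t, s2 t) * x)) = (qu 2 * (inc ((s1 t, s2 t) * x)).1, (0 : Q)) := rfl
      have d3 : dir 3 (inc ((s1 t, s2 t) * x)) = ((0 : Q), qu 0 * (inc ((s1 t, s2 t) * x)).2) := rfl
      have d4 : dir 4 (inc ((s1 t, s2 t) * x)) = ((0 : Q), qu 1 * (inc ((s1 t, s2 t) * x)).2) := rfl
      have d5 : dir 5 (inc ((s1 t, s2 t) * x)) = ((0 : Q), qu 2 * (inc ((s1 t, s2 t) * x)).2) := rfl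
      rw [d0, d1, d2, d3, d4, d5, hi1, hi2]
      simp only [Prod.smul_mk, Prod.mk_add_mk, smul_zero, add_zero, zero_add]
      apply Prod.ext
      · show (θ1 • im n1) * cq n1 θ1 t * (x.1 : Q) = _
        rw [mul_assoc, smul_mul_assoc]
        unfold im
        rw [Fin.sum_univ_three, add_mul, add_mul, smul_mul_assoc, smul_mul_assoc, smul_mul_assoc]
        module
      · show (θ2 • im n2) * cq n2 θ2 t * (x.2 : Q) = _
        rw [mul_assoc, smul_mul_assoc]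
        unfold im
        rw [Fin.sum_univ_three, add_mul, add_mul, smul_mul_assoc, smul_mul_assoc, smul_mul_assoc]
        module
    rw [hv]
    simp only [map_add, map_smul, smul_eq_mul]
    rw [Fin.sum_univ_six]
    rfl

end Pool.Agent.KS6_31.CO
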