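import Pool.Graph.R_seed8.Helper427.FPA.P_slice_pos
import Pool.Graph.R_seed8.Helper427.FPA.P_T_pos
import Pool.Agent.KS6_31.CO.Cert
import Pool.Agent.KS6_31.CO.Maj

/-! The Weitzenboeck form on 3-forms of `ℝ⁶` (for MP_b50944_gt): it is at least zero if
`2 λ₁ + 2 λ₂ + λ₃ + λ₄ + λ₅ + λ₆ + λ₇ ≥ 0` and positive if this sum is positive. -/

namespace Pool.Agent.KS6_31.CO

open FPA

/-- the weights `2, 2, 1, 1, 1, 1, 1` -/
def om : Fin 7 → ℝ := ![2, 2, 1, 1, 1, 1, 1]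

theorem om_anti : Antitone om := by
  intro i j hij
  fin_cases i <;> fin_cases j <;> simp [om] at hij ⊢

theorem om_nonneg (k : Fin 7) : 0 ≤ om k := by
  fin_cases k <;> simp [om]

theorem om_sum : ∑ k, om k = 9 := by
  simp [om, Fin.sum_univ_succ]
  norm_num

theorem excess4 (x y u v n : ℝ) (h1 : n ≤ 4 * (x ^ 2 + y ^ 2)) (h2 : -n ≤ 4 * (u ^ 2 + v ^ 2)) :
    max (n - 4 * x ^ 2) 0 + max (n - 4 * y ^ 2) 0 + max (-n - 4 * u ^ 2) 0
      + max (-n - 4 * v ^ 2) 0 ≤ |n| := by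
  have hx := sq_nonneg x
  have hy := sq_nonneg y
  have hu := sq_nonneg u
  have hv := sq_nonneg v
  rcases le_total 0 n with h | h
  · rw [abs_of_nonneg h, max_eq_right (by linarith : -n - 4 * u ^ 2 ≤ 0),
      max_eq_right (by linarith : -n - 4 * v ^ 2 ≤ 0)]
    rcases max_choice (n - 4 * x ^ 2) 0 with e1 | e1 <;>
    rcases max_choice (n - 4 * y ^ 2) 0 with e2 | e2 <;> rw [e1, e2] <;> linarith
  · rw [abs_of_nonpos h, max_eq_right (by linarith : n - 4 * x ^ 2 ≤ 0),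
      max_eq_right (by linarith : n - 4 * y ^ 2 ≤ 0)]
    rcases max_choice (-n - 4 * u ^ 2) 0 with e1 | e1 <;>
    rcases max_choice (-n - 4 * v ^ 2) 0 with e2 | e2 <;> rw [e1, e2] <;> linarith

theorem excess3 (a b c S : ℝ) (h : a + b + c = 0) (ha : |a| ≤ S) (hb : |b| ≤ S) (hc : |c| ≤ S) :
    max a 0 + max b 0 + max c 0 ≤ S := by
  rw [abs_le] at ha hb hc
  rcases max_choice a 0 with e1 | e1 <;>
  rcases max_choice b 0 with e2 | e2 <;>
  rcases max_choice c 0 with e3 | e3 <;> rw [e1, e2, e3] <;> linarith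

/-- the eigenvalue of the Cartan part minus the mean -/
theorem cartan_dev (p q r D x y t : ℝ) (h : x ^ 2 + y ^ 2 + t ^ 2 = 1) :
    |D * x ^ 2 + D * y ^ 2 + D * t ^ 2 + 2 * (p * (x * y) + q * (x * t) + r * (y * t)) - D|
      ≤ |p| + |q| + |r| := by
  have e : D * x ^ 2 + D * y ^ 2 + D * t ^ 2 + 2 * (p * (x * y) + q * (x * t) + r * (y * t)) - D
      = p * (2 * (x * y)) + q * (2 * (x * t)) + r * (2 * (y * t)) := by
    linear_combination D * h
  rw [e]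
  have b1 : |2 * (x * y)| ≤ 1 := by
    rw [abs_le]; constructor <;> nlinarith [sq_nonneg (x + y), sq_nonneg (x - y), sq_nonneg t]
  have b2 : |2 * (x * t)| ≤ 1 := by
    rw [abs_le]; constructor <;> nlinarith [sq_nonneg (x + t), sq_nonneg (x - t), sq_nonneg y]
  have b3 : |2 * (y * t)| ≤ 1 := by
    rw [abs_le]; constructor <;> nlinarith [sq_nonneg (y + t), sq_nonneg (y - t), sq_nonneg x]
  have c1 : |p * (2 * (x * y))| ≤ |p| := by
    rw [abs_mul]; exact mul_le_of_le_one_right (abs_nonneg p) b1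
  have c2 : |q * (2 * (x * t))| ≤ |q| := by
    rw [abs_mul]; exact mul_le_of_le_one_right (abs_nonneg q) b2
  have c3 : |r * (2 * (y * t))| ≤ |r| := by
    rw [abs_mul]; exact mul_le_of_le_one_right (abs_nonneg r) b3
  have d1 := abs_add_le (p * (2 * (x * y)) + q * (2 * (x * t))) (r * (2 * (y * t)))
  have d2 := abs_add_le (p * (2 * (x * y))) (q * (2 * (x * t)))
  linarith

theorem slice_ge (K : T4) (hK : CurvT K) (cc : ℝ) (h4 : Low om K cc) (v : T3) (hv : IsSlice v)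
    (hne : v ≠ 0) : ∃ P : ℝ, 0 < P ∧ 4 * P * cc ≤ Tform K v := by
  set A := v 0 1 2 with hA
  set B := v 0 4 5 with hB
  set C := v 3 1 5 with hC
  set D := v 3 4 2 with hD
  have hN : 0 < A ^ 2 + B ^ 2 + C ^ 2 + D ^ 2 := by
    by_contra hcon
    push Not at hcon
    have hA0 : A = 0 := by
      have : A ^ 2 = 0 := le_antisymm (by linarith only [hcon, sq_nonneg B, sq_nonneg C, sq_nonneg D]) (sq_nonneg A)
      exact pow_eq_zero_iff (two_ne_zero) |>.1 this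
    have hB0 : B = 0 := by
      have : B ^ 2 = 0 := le_antisymm (by linarith only [hcon, sq_nonneg A, sq_nonneg C, sq_nonneg D]) (sq_nonneg B)
      exact pow_eq_zero_iff (two_ne_zero) |>.1 this
    have hC0 : C = 0 := by
      have : C ^ 2 = 0 := le_antisymm (by linarith only [hcon, sq_nonneg A, sq_nonneg B, sq_nonneg D]) (sq_nonneg C)
      exact pow_eq_zero_iff (two_ne_zero) |>.1 this
    have hD0 : D = 0 := by
      have : D ^ 2 = 0 := le_antisymm (by linarith only [hcon, sq_nonneg A, sq_nonneg B, sq_nonneg C]) (sq_nonneg D)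
      exact pow_eq_zero_iff (two_ne_zero) |>.1 this
    exact hne (slice_zero_352 v hv hA0 hB0 hC0 hD0)
  have hT := T_slice K hK v hv A B C D rfl rfl rfl rfl
  clear_value A B C D
  -- new variables
  obtain ⟨z, hz0, hz1, hz2, hz3⟩ : ∃ z : Fin 4 → ℝ, z 0 = (A - B - C - D) / 4 ∧
      z 1 = (A - B + C + D) / 4 ∧ z 2 = (A + B - C + D) / 4 ∧ z 3 = (A + B + C - D) / 4 :=
    ⟨![(A - B - C - D) / 4, (A - B + C + D) / 4, (A + B - C + D) / 4, (A + B + C - D) / 4],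
      rfl, rfl, rfl, rfl⟩
  have eA : A = z 0 + z 1 + z 2 + z 3 := by rw [hz0, hz1, hz2, hz3]; ring
  have eB : B = -z 0 - z 1 + z 2 + z 3 := by rw [hz0, hz1, hz2, hz3]; ring
  have eC : C = -z 0 + z 1 - z 2 + z 3 := by rw [hz0, hz1, hz2, hz3]; ring
  have eD : D = -z 0 + z 1 + z 2 - z 3 := by rw [hz0, hz1, hz2, hz3]; ring
  clear hz0 hz1 hz2 hz3
  subst eA eB eC eD
  obtain ⟨k, hk, hm, hp, hx, hk2, hnn⟩ := certificate z
  rw [nn_sum z k hk] at hnn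
  have hx0' : ∀ a, 0 ≤ 16 * z a ^ 2 + 4 * k a := fun a => (hx a).1
  have hx1' : ∀ a, 16 * z a ^ 2 + 4 * k a ≤ 8 * ∑ c, z c ^ 2 := fun a => (hx a).2
  rw [Fin.sum_univ_four] at hk
  have hk0 : k 0 = -k 1 - k 2 - k 3 := by linarith
  set P : ℝ := ∑ c, z c ^ 2 with hP
  have hP' : P = z 0 ^ 2 + z 1 ^ 2 + z 2 ^ 2 + z 3 ^ 2 := by rw [hP, Fin.sum_univ_four]
  set w : Fin 12 → ℝ := ![4 * (z 2 - z 1) ^ 2 + 2 * (k 2 + k 1), 4 * (z 3 - z 0) ^ 2 + 2 * (k 3 + k 0),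
    4 * (z 1 + z 2) ^ 2 + 2 * (k 1 + k 2), 4 * (z 0 + z 3) ^ 2 + 2 * (k 0 + k 3),
    4 * (z 3 - z 1) ^ 2 + 2 * (k 3 + k 1), 4 * (z 2 - z 0) ^ 2 + 2 * (k 2 + k 0),
    4 * (z 1 + z 3) ^ 2 + 2 * (k 1 + k 3), 4 * (z 0 + z 2) ^ 2 + 2 * (k 0 + k 2),
    4 * (z 3 - z 2) ^ 2 + 2 * (k 3 + k 2), 4 * (z 1 - z 0) ^ 2 + 2 * (k 1 + k 0),
    4 * (z 2 + z 3) ^ 2 + 2 * (k 2 + k 3), 4 * (z 0 + z 1) ^ 2 + 2 * (k 0 + k 1)] with hw
  have w0 : w 0 = 4 * (z 2 - z 1) ^ 2 + 2 * (k 2 + k 1) := rfl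
  have w1 : w 1 = 4 * (z 3 - z 0) ^ 2 + 2 * (k 3 + k 0) := rfl
  have w2 : w 2 = 4 * (z 1 + z 2) ^ 2 + 2 * (k 1 + k 2) := rfl
  have w3 : w 3 = 4 * (z 0 + z 3) ^ 2 + 2 * (k 0 + k 3) := rfl
  have w4 : w 4 = 4 * (z 3 - z 1) ^ 2 + 2 * (k 3 + k 1) := rfl
  have w5 : w 5 = 4 * (z 2 - z 0) ^ 2 + 2 * (k 2 + k 0) := rfl
  have w6 : w 6 = 4 * (z 1 + z 3) ^ 2 + 2 * (k 1 + k 3) := rfl
  have w7 : w 7 = 4 * (z 0 + z 2) ^ 2 + 2 * (k 0 + k 2) := rfl
  have w8 : w 8 = 4 * (z 3 - z 2) ^ 2 + 2 * (k 3 + k 2) := rfl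
  have w9 : w 9 = 4 * (z 1 - z 0) ^ 2 + 2 * (k 1 + k 0) := rfl
  have w10 : w 10 = 4 * (z 2 + z 3) ^ 2 + 2 * (k 2 + k 3) := rfl
  have w11 : w 11 = 4 * (z 0 + z 1) ^ 2 + 2 * (k 0 + k 1) := rfl
  have hwb : ∀ i, 0 ≤ w i ∧ w i ≤ 8 * P := by
    intro i
    fin_cases i
    · exact hm 2 1 (by decide)
    · exact hm 3 0 (by decide)
    · exact hp 1 2 (by decide)
    · exact hp 0 3 (by decide)
    · exact hm 3 1 (by decide)
    · exact hm 2 0 (by decide)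
    · exact hp 1 3 (by decide)
    · exact hp 0 2 (by decide)
    · exact hm 3 2 (by decide)
    · exact hm 1 0 (by decide)
    · exact hp 2 3 (by decide)
    · exact hp 0 1 (by decide)
  -- Cartan matrix
  set q01 : ℝ := 4 * (z 0 ^ 2 - z 1 ^ 2 - z 2 ^ 2 + z 3 ^ 2) - 2 * (k 1 + k 2) with hq01
  set q02 : ℝ := 4 * (z 0 ^ 2 - z 1 ^ 2 + z 2 ^ 2 - z 3 ^ 2) - 2 * (k 1 + k 3) with hq02
  set q12 : ℝ := 4 * (z 0 ^ 2 + z 1 ^ 2 - z 2 ^ 2 - z 3 ^ 2) - 2 * (k 2 + k 3) with hq12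
  set Q : Fin 3 → Fin 3 → ℝ := ![![4 * P, q01, q02], ![q01, 4 * P, q12], ![q02, q12, 4 * P]] with hQ
  have Q00 : Q 0 0 = 4 * P := rfl
  have Q11 : Q 1 1 = 4 * P := rfl
  have Q22 : Q 2 2 = 4 * P := rfl
  have Q01 : Q 0 1 = q01 := rfl
  have Q02 : Q 0 2 = q02 := rfl
  have Q12 : Q 1 2 = q12 := rfl
  have Q10 : Q 1 0 = q01 := rfl
  have Q20 : Q 2 0 = q02 := rfl
  have Q21 : Q 2 1 = q12 := rfl
  have hQs : ∀ i j, Q i j = Q j i := by
    intro i j
    fin_cases i <;> fin_cases j <;> rfl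
  have hform : ∀ t : Fin 3 → ℝ, ∃ x : Fin 4 → ℝ, ∑ a, x a = 0 ∧ ∑ a, x a ^ 2 = ∑ i, t i ^ 2 ∧
      ∑ i, ∑ j, Q i j * t i * t j = ∑ a, (16 * z a ^ 2 + 4 * k a) * x a ^ 2 := by
    intro t
    obtain ⟨x, hx0, hx1, hx2, hx3⟩ : ∃ x : Fin 4 → ℝ, x 0 = (t 0 + t 1 + t 2) / 2 ∧
        x 1 = (t 0 - t 1 - t 2) / 2 ∧ x 2 = (-t 0 + t 1 - t 2) / 2 ∧
        x 3 = (-t 0 - t 1 + t 2) / 2 :=
      ⟨![(t 0 + t 1 + t 2) / 2, (t 0 - t 1 - t 2) / 2, (-t 0 + t 1 - t 2) / 2,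
        (-t 0 - t 1 + t 2) / 2], rfl, rfl, rfl, rfl⟩
    refine ⟨x, ?_, ?_, ?_⟩
    · rw [Fin.sum_univ_four, hx0, hx1, hx2, hx3]; ring
    · rw [Fin.sum_univ_four, Fin.sum_univ_three, hx0, hx1, hx2, hx3]; ring
    · rw [Fin.sum_univ_four, hx0, hx1, hx2, hx3]
      simp only [Fin.sum_univ_three]
      rw [Q00, Q01, Q02, Q10, Q11, Q12, Q20, Q21, Q22, hP', hq01, hq02, hq12, hk0]
      ring
  obtain ⟨ν, n, hn, hQn, hν, hνs⟩ := spectral3 Q hQs (8 * P)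
    (fun t => by
      obtain ⟨x, hx0, hx1, hx2⟩ := hform t
      rw [hx2]
      exact Finset.sum_nonneg fun a _ => mul_nonneg (hx0' a) (sq_nonneg _))
    (fun t => by
      obtain ⟨x, hx0, hx1, hx2⟩ := hform t
      rw [hx2, ← hx1, Finset.mul_sum]
      exact Finset.sum_le_sum fun a _ => mul_le_mul_of_nonneg_right (hx1' a) (sq_nonneg _))
  have hPpos : 0 < P := by
    have h9 : (z 0 + z 1 + z 2 + z 3) ^ 2 + (-z 0 - z 1 + z 2 + z 3) ^ 2 +
        (-z 0 + z 1 - z 2 + z 3) ^ 2 + (-z 0 + z 1 + z 2 - z 3) ^ 2 =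
        4 * (z 0 ^ 2 + z 1 ^ 2 + z 2 ^ 2 + z 3 ^ 2) := by ring
    rw [hP']
    linarith only [hN, h9]
  have hsumμ : ∑ i, Sum.elim w ν i = 36 * P := by
    rw [Fintype.sum_sum_type]
    simp only [Sum.elim_inl, Sum.elim_inr]
    rw [hνs, sum12_352, Fin.sum_univ_three, w0, w1, w2, w3, w4, w5, w6, w7, w8, w9, w10, w11,
      Q00, Q11, Q22, hP', hk0]
    ring
  -- the excess over `4 P`
  have m01 : nn z k 0 1 = q12 := by
    unfold nn; rw [← hP, hP', hq12, hk0]; ring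
  have m02 : nn z k 0 2 = q02 := by
    unfold nn; rw [← hP, hP', hq02, hk0]; ring
  have m03 : nn z k 0 3 = q01 := by
    unfold nn; rw [← hP, hP', hq01, hk0]; ring
  rw [m01, m02, m03] at hnn
  have ex : ∑ i, max (Sum.elim w ν i - 4 * P) 0 ≤ 8 * P := by
    rw [Fintype.sum_sum_type]
    simp only [Sum.elim_inl, Sum.elim_inr]
    have hA1 : max (w 0 - 4 * P) 0 + max (w 1 - 4 * P) 0 + max (w 2 - 4 * P) 0
        + max (w 3 - 4 * P) 0 ≤ |q01| := by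
      have h1 := excess4 (z 0 + z 3) (z 0 - z 3) (z 1 + z 2) (z 1 - z 2) q01
        (by have := hk2 0 3 (by decide); rw [hq01]; rw [hP', hk0] at this; linarith)
        (by have := hk2 1 2 (by decide); rw [hq01]; rw [hP'] at this; linarith)
      have e0 : w 0 - 4 * P = -q01 - 4 * (z 1 + z 2) ^ 2 := by rw [w0, hP', hq01]; ring
      have e1 : w 1 - 4 * P = q01 - 4 * (z 0 + z 3) ^ 2 := by rw [w1, hP', hq01, hk0]; ring
      have e2 : w 2 - 4 * P = -q01 - 4 * (z 1 - z 2) ^ 2 := by rw [w2, hP', hq01]; ring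
      have e3 : w 3 - 4 * P = q01 - 4 * (z 0 - z 3) ^ 2 := by rw [w3, hP', hq01, hk0]; ring
      rw [e0, e1, e2, e3]
      linarith
    have hA2 : max (w 4 - 4 * P) 0 + max (w 5 - 4 * P) 0 + max (w 6 - 4 * P) 0
        + max (w 7 - 4 * P) 0 ≤ |q02| := by
      have h1 := excess4 (z 0 + z 2) (z 0 - z 2) (z 1 + z 3) (z 1 - z 3) q02
        (by have := hk2 0 2 (by decide); rw [hq02]; rw [hP', hk0] at this; linarith)
        (by have := hk2 1 3 (by decide); rw [hq02]; rw [hP'] at this; linarith)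
      have e0 : w 4 - 4 * P = -q02 - 4 * (z 1 + z 3) ^ 2 := by rw [w4, hP', hq02]; ring
      have e1 : w 5 - 4 * P = q02 - 4 * (z 0 + z 2) ^ 2 := by rw [w5, hP', hq02, hk0]; ring
      have e2 : w 6 - 4 * P = -q02 - 4 * (z 1 - z 3) ^ 2 := by rw [w6, hP', hq02]; ring
      have e3 : w 7 - 4 * P = q02 - 4 * (z 0 - z 2) ^ 2 := by rw [w7, hP', hq02, hk0]; ring
      rw [e0, e1, e2, e3]
      linarith
    have hA3 : max (w 8 - 4 * P) 0 + max (w 9 - 4 * P) 0 + max (w 10 - 4 * P) 0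
        + max (w 11 - 4 * P) 0 ≤ |q12| := by
      have h1 := excess4 (z 0 + z 1) (z 0 - z 1) (z 2 + z 3) (z 2 - z 3) q12
        (by have := hk2 0 1 (by decide); rw [hq12]; rw [hP', hk0] at this; linarith)
        (by have := hk2 2 3 (by decide); rw [hq12]; rw [hP'] at this; linarith)
      have e0 : w 8 - 4 * P = -q12 - 4 * (z 2 + z 3) ^ 2 := by rw [w8, hP', hq12]; ring
      have e1 : w 9 - 4 * P = q12 - 4 * (z 0 + z 1) ^ 2 := by rw [w9, hP', hq12, hk0]; ring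
      have e2 : w 10 - 4 * P = -q12 - 4 * (z 2 - z 3) ^ 2 := by rw [w10, hP', hq12]; ring
      have e3 : w 11 - 4 * P = q12 - 4 * (z 0 - z 1) ^ 2 := by rw [w11, hP', hq12, hk0]; ring
      rw [e0, e1, e2, e3]
      linarith
    have hdev : ∀ i, |ν i - 4 * P| ≤ |q01| + |q02| + |q12| := by
      intro i
      have hni := hn i i
      rw [Fin.sum_univ_three, if_pos rfl] at hni
      have hν' : ν i = ∑ a, ∑ b, Q a b * n i a * n i b := by
        have e1 : ∀ a b, Q a b * n i a * n i b = ∑ j, ν j * (n j a * n i a) * (n j b * n i b) := by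
          intro a b
          rw [hQn a b, Finset.sum_mul, Finset.sum_mul]
          refine Finset.sum_congr rfl fun j _ => ?_
          ring
        have e2 : ∑ a, ∑ b, Q a b * n i a * n i b
            = ∑ j, ν j * (∑ a, n j a * n i a) * (∑ b, n j b * n i b) := by
          simp only [e1]
          simp only [Fin.sum_univ_three]
          ring
        rw [e2]
        simp only [hn]
        simp
      have e3 : ν i - 4 * P = 4 * P * n i 0 ^ 2 + 4 * P * n i 1 ^ 2 + 4 * P * n i 2 ^ 2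
          + 2 * (q01 * (n i 0 * n i 1) + q02 * (n i 0 * n i 2) + q12 * (n i 1 * n i 2)) - 4 * P := by
        rw [hν']
        simp only [Fin.sum_univ_three]
        rw [Q00, Q01, Q02, Q10, Q11, Q12, Q20, Q21, Q22]
        ring
      rw [e3]
      exact cartan_dev q01 q02 q12 (4 * P) _ _ _ (by rw [← hni]; ring)
    have hB : max (ν 0 - 4 * P) 0 + max (ν 1 - 4 * P) 0 + max (ν 2 - 4 * P) 0
        ≤ |q01| + |q02| + |q12| :=
      excess3 _ _ _ _ (by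
        rw [Fin.sum_univ_three, Fin.sum_univ_three, Q00, Q11, Q22] at hνs
        linarith) (hdev 0) (hdev 1) (hdev 2)
    rw [sum12_352 (fun i => max (w i - 4 * P) 0), Fin.sum_univ_three]
    linarith
  have hlp := major (n := 7) (by simp) (fun i => Kq K (xi n i) (xi n i)) (Sum.elim w ν)
    (fun k => 4 * P * om k) (4 * P * cc)
    (fun i j hij => mul_le_mul_of_nonneg_left (om_anti hij) (by linarith))
    (fun i => by
      rcases i with i | i
      · exact (hwb i).1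
      · exact (hν i).1)
    (by rw [hsumμ, ← Finset.mul_sum, om_sum]; ring)
    (by
      intro l
      by_cases hl : l < 2
      · have e : om l = 2 := by
          fin_cases l <;> simp [om] at hl ⊢
        rw [e]
        refine le_trans (le_of_eq ?_) (Finset.sum_nonneg fun k _ => le_max_right _ _)
        refine Finset.sum_eq_zero fun i _ => max_eq_right ?_
        rcases i with i | i
        · have := (hwb i).2
          show w i - _ ≤ 0
          linarith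
        · have := (hν i).2
          show ν i - _ ≤ 0
          linarith
      · have e : om l = 1 := by
          fin_cases l <;> simp [om] at hl ⊢
        rw [e, mul_one]
        refine ex.trans ?_
        have h7 : (8 : ℝ) * P = ∑ k : Fin 7, (![4 * P, 4 * P, 0, 0, 0, 0, 0] : Fin 7 → ℝ) k := by
          simp [Fin.sum_univ_succ]
          ring
        rw [h7]
        refine Finset.sum_le_sum fun k _ => ?_
        fin_cases k
        all_goals first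
          | (refine le_trans (le_of_eq ?_) (le_max_left _ _); simp [om]; ring)
          | exact le_max_right _ _)
    (fun p hp => by
      have h1 := low_sub om K cc h4 (xi n) (xi_on n hn).1 (xi_on n hn).2 p hp
      have h2 := mul_le_mul_of_nonneg_left h1 (by linarith : (0 : ℝ) ≤ 4 * P)
      refine h2.trans (le_of_eq ?_)
      rw [Finset.mul_sum]
      refine Finset.sum_congr rfl fun i _ => ?_
      ring)
  rw [Fintype.sum_sum_type] at hlp
  simp only [Sum.elim_inl, Sum.elim_inr] at hlp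
  rw [sum12_352, Fin.sum_univ_three] at hlp
  have r0 : Kq K (xi n (Sum.inl 0)) (xi n (Sum.inl 0)) = (K 0 1 0 1 + K 3 4 3 4) / 2 + K 0 1 3 4 :=
    (Kq_root K hK).1 0 1 3 4
  have r1 : Kq K (xi n (Sum.inl 1)) (xi n (Sum.inl 1)) = (K 0 1 0 1 + K 3 4 3 4) / 2 - K 0 1 3 4 :=
    (Kq_root K hK).2 0 1 3 4
  have r2 : Kq K (xi n (Sum.inl 2)) (xi n (Sum.inl 2)) = (K 0 4 0 4 + K 1 3 1 3) / 2 + K 0 4 1 3 :=
    (Kq_root K hK).1 0 4 1 3
  have r3 : Kq K (xi n (Sum.inl 3)) (xi n (Sum.inl 3)) = (K 0 4 0 4 + K 1 3 1 3) / 2 - K 0 4 1 3 :=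
    (Kq_root K hK).2 0 4 1 3
  have r4 : Kq K (xi n (Sum.inl 4)) (xi n (Sum.inl 4)) = (K 0 2 0 2 + K 3 5 3 5) / 2 + K 0 2 3 5 :=
    (Kq_root K hK).1 0 2 3 5
  have r5 : Kq K (xi n (Sum.inl 5)) (xi n (Sum.inl 5)) = (K 0 2 0 2 + K 3 5 3 5) / 2 - K 0 2 3 5 :=
    (Kq_root K hK).2 0 2 3 5
  have r6 : Kq K (xi n (Sum.inl 6)) (xi n (Sum.inl 6)) = (K 0 5 0 5 + K 2 3 2 3) / 2 + K 0 5 2 3 :=
    (Kq_root K hK).1 0 5 2 3
  have r7 : Kq K (xi n (Sum.inl 7)) (xi n (Sum.inl 7)) = (K 0 5 0 5 + K 2 3 2 3) / 2 - K 0 5 2 3 :=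
    (Kq_root K hK).2 0 5 2 3
  have r8 : Kq K (xi n (Sum.inl 8)) (xi n (Sum.inl 8)) = (K 1 2 1 2 + K 4 5 4 5) / 2 + K 1 2 4 5 :=
    (Kq_root K hK).1 1 2 4 5
  have r9 : Kq K (xi n (Sum.inl 9)) (xi n (Sum.inl 9)) = (K 1 2 1 2 + K 4 5 4 5) / 2 - K 1 2 4 5 :=
    (Kq_root K hK).2 1 2 4 5
  have r10 : Kq K (xi n (Sum.inl 10)) (xi n (Sum.inl 10)) = (K 1 5 1 5 + K 2 4 2 4) / 2 + K 1 5 2 4 :=
    (Kq_root K hK).1 1 5 2 4
  have r11 : Kq K (xi n (Sum.inl 11)) (xi n (Sum.inl 11)) = (K 1 5 1 5 + K 2 4 2 4) / 2 - K 1 5 2 4 :=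
    (Kq_root K hK).2 1 5 2 4
  have rc : ∀ i, Kq K (xi n (Sum.inr i)) (xi n (Sum.inr i)) =
      n i 0 ^ 2 * K 0 3 0 3 + n i 1 ^ 2 * K 1 4 1 4 + n i 2 ^ 2 * K 2 5 2 5
      + 2 * (n i 0 * n i 1 * K 0 3 1 4 + n i 0 * n i 2 * K 0 3 2 5 + n i 1 * n i 2 * K 1 4 2 5) :=
    fun i => Kq_cartan K hK (n i)
  rw [r0, r1, r2, r3, r4, r5, r6, r7, r8, r9, r10, r11, rc 0, rc 1, rc 2,
    w0, w1, w2, w3, w4, w5, w6, w7, w8, w9, w10, w11] at hlp
  have b1 : K 0 1 3 4 + K 0 4 1 3 = K 0 3 1 4 := by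
    have h1 := hK.bianchi 0 1 3 4
    have h2 := curv_symm K hK 1 3 0 4
    have h3 := hK.anti1 3 0 1 4
    linarith
  have b2 : K 0 2 3 5 + K 0 5 2 3 = K 0 3 2 5 := by
    have h1 := hK.bianchi 0 2 3 5
    have h2 := curv_symm K hK 2 3 0 5
    have h3 := hK.anti1 3 0 2 5
    linarith
  have b3 : K 1 2 4 5 + K 1 5 2 4 = K 1 4 2 5 := by
    have h1 := hK.bianchi 1 2 4 5
    have h2 := curv_symm K hK 2 4 1 5
    have h3 := hK.anti1 4 1 2 5
    linarith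
  have c00 := hQn 0 0
  have c11 := hQn 1 1
  have c22 := hQn 2 2
  have c01 := hQn 0 1
  have c02 := hQn 0 2
  have c12 := hQn 1 2
  rw [Fin.sum_univ_three] at c00 c11 c22 c01 c02 c12
  rw [Q00, hP'] at c00
  rw [Q11, hP'] at c11
  rw [Q22, hP'] at c22
  rw [Q01, hq01] at c01
  rw [Q02, hq02] at c02
  rw [Q12, hq12] at c12
  refine ⟨P, hPpos, ?_⟩
  rw [hT]
  rw [hk0] at hlp
  refine le_of_le_of_eq hlp ?_
  linear_combination (-K 0 3 0 3) * c00 - K 1 4 1 4 * c11 - K 2 5 2 5 * c22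
    - 2 * K 0 3 1 4 * c01 - 2 * K 0 3 2 5 * c02 - 2 * K 1 4 2 5 * c12
    + 4 * (k 1 + k 2) * b1 + 4 * (k 1 + k 3) * b2 + 4 * (k 2 + k 3) * b3


/-- A curvature tensor with `2 λ₁ + 2 λ₂ + λ₃ + … + λ₇ ≥ c ≥ 0` has a nonnegative Weitzenboeck
form on 3-forms, which is positive if `c > 0`. -/
theorem T_ge (K : T4) (hK : CurvT K) (c : ℝ) (hc : 0 ≤ c) (h4 : Low om K c) (u : T3) (hu : Alt3 u) :
    0 ≤ Tform K u ∧ (0 < c → u ≠ 0 → 0 < Tform K u) := by
  obtain ⟨st, hst⟩ := star_exists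
  obtain ⟨O, θ, hO, hsl⟩ := normal_form st hst u hu
  have hcs : Real.cos θ ^ 2 + Real.sin θ ^ 2 = 1 := Real.cos_sq_add_sin_sq θ
  have hw : Alt3 (rot3 O u) := rot3_alt O u hu
  have h1 := T_phase st hst (rot4 O K) (curv_rot O K hK) (rot3 O u) hw (Real.cos θ) (Real.sin θ) hcs
  rw [T_rot O hO] at h1
  have hzero : Real.cos θ • rot3 O u + Real.sin θ • st (rot3 O u) = 0 → u = 0 := by
    intro hv
    apply rot3_inj O hO
    have hst0 : st 0 = 0 := by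
      have := hst.smul 0 0
      simpa using this
    have h2 : st (Real.cos θ • rot3 O u + Real.sin θ • st (rot3 O u)) = 0 := by rw [hv, hst0]
    rw [hst.add, hst.smul, hst.smul, hst.sq _ hw] at h2
    have h3 : rot3 O u = Real.cos θ • (Real.cos θ • rot3 O u + Real.sin θ • st (rot3 O u))
        - Real.sin θ • (Real.cos θ • st (rot3 O u) + Real.sin θ • -rot3 O u) := by
      have h5 : rot3 O u = (Real.cos θ ^ 2 + Real.sin θ ^ 2) • rot3 O u := by rw [hcs, one_smul]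
      conv_lhs => rw [h5]
      module
    rw [h3, hv, h2]
    simp
  rw [← h1]
  by_cases hv : Real.cos θ • rot3 O u + Real.sin θ • st (rot3 O u) = 0
  · refine ⟨?_, fun _ hne => absurd (hzero hv) hne⟩
    rw [hv]
    have : Tform (rot4 O K) 0 = 0 := by
      unfold Tform
      simp
    rw [this]
  · obtain ⟨P, hP, hle⟩ := slice_ge _ (curv_rot O K hK) c (low_rot om O hO K c h4) _ hsl hv
    refine ⟨le_trans (by positivity) hle, fun hc' _ => lt_of_lt_of_le (by positivity) hle⟩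

end Pool.Agent.KS6_31.CO
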